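import Pool.Agent.Helper81.LCY.PlaneSum

/-!
MP_f7e214_ag, row B1: the components of the class of a divisor; principal divisors have class
zero.
-/

open Polynomial Pool.Agent.Helper82.LCY

namespace LCY

namespace H81

noncomputable section

variable {L : Type} [Field L] [Algebra ℂ L]

/-- The points of the truncated structure. -/
theorem trunc_X {k : ℕ} (T : PStr L k) (j : ℕ) (h : j ≤ k) :
    (T.trunc j h).X = surf T.S T.R j := by
  unfold PStr.X PStr.trunc
  exact surf_congr T.S _ T.R j le_rfl h fun _ _ _ _ => rfl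

theorem mem_trunc_X {k : ℕ} (T : PStr L k) (i : Fin k) :
    T.R i ∈ (T.trunc i i.2.le).X := by
  rw [trunc_X]
  exact T.valid i

/-- Every curve through a point that is blown up is a curve of the surface. -/
theorem cur_of_through (h17 : ST_A17) {k : ℕ} (T : PStr L k) (i : Fin k) {v : DVal L}
    (h : Through (T.R i) v) : T.Cur v := by
  have h1 : (T.trunc i i.2.le).Cur v := ⟨T.R i, mem_trunc_X T i, h⟩
  rw [h17] at h1
  rw [h17]
  rcases h1 with h2 | ⟨j, hj⟩
  · exact Or.inl h2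
  · exact Or.inr ⟨_, hj⟩

theorem exists_coord (h16 : ST_A16) {k : ℕ} (T : PStr L k) (i : Fin k) :
    ∃ P : Coord L, P.loc = T.R i := h16 L k T i _ (T.valid i)

theorem mul_ord {R : Subalgebra ℂ L} {v : DVal L} (h : IsOrd R v) : mul R v = -1 := if_pos h

theorem mul_ne {R : Subalgebra ℂ L} {v : DVal L} (h : mul R v ≠ 0) :
    IsOrd R v ∨ Through R v := by
  by_contra h'
  push Not at h'
  apply h
  unfold mul
  rw [if_neg h'.1, if_neg h'.2]

theorem deg_ne {S : Coord L} {v : DVal L} (h : deg S v ≠ 0) : PlaneCur S v := by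
  by_contra h'
  apply h
  unfold deg
  rw [if_neg fun h1 => h' (Or.inl h1)]
  have h2 : {n : ℕ | ∃ g, IsAdic S g v ∧ tdeg g = n} = ∅ := by
    ext n
    constructor
    · rintro ⟨g, hg, -⟩
      exact h' (Or.inr ⟨g, hg⟩)
    · intro h3; exact h3.elim
  rw [h2, Nat.sInf_empty]
  rfl

theorem not_through_of_isOrd {P : Coord L} {v : DVal L} (h : IsOrd P.loc v) :
    ¬ Through P.loc v := by
  intro h1
  obtain ⟨g, hg, h0⟩ := (through_iff P v).1 h1
  exact not_isOrd_of_adic hg h0 h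

theorem div_inter {k : ℕ} (T : PStr L k) {D : DVal L → ℤ} (hD : T.IsDiv D)
    {M : Type} [AddCommMonoid M] (f : DVal L → M) (hf : ∀ v, D v = 0 → f v = 0) (A : Set (DVal L))
    (hA : A ⊆ T.C) : (A ∩ Function.support f).Finite := by
  refine hD.subset ?_
  rintro v ⟨hv, hne⟩
  exact ⟨hA hv, fun h => hne (hf v h)⟩

theorem PC_subset (h17 : ST_A17) {k : ℕ} (T : PStr L k) : PC T.S ⊆ T.C := by
  rintro v ⟨h0, h⟩
  exact ⟨h0, (h17 L k T v).2 (Or.inl h)⟩

theorem Thr_subset (h17 : ST_A17) {k : ℕ} (T : PStr L k) (i : Fin k) :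
    Thr (T.R i) ⊆ T.C := by
  rintro v ⟨h0, h⟩
  exact ⟨h0, cur_of_through h17 T i h⟩

theorem clD_fst' {k : ℕ} (T : PStr L k) {D : DVal L → ℤ} (hD : T.IsDiv D) :
    (T.clD D).1 = ∑ᶠ v ∈ T.C, D v * deg T.S v := by
  unfold PStr.clD
  have h := AddMonoidHom.map_finsum_mem' (s := T.C) (f := fun v => D v • T.cl v)
    (AddMonoidHom.fst ℤ (Fin k → ℤ)) (div_inter T hD _ (fun v h => by simp only [h, zero_smul])
      _ (Set.Subset.refl _))
  exact h

theorem clD_snd' {k : ℕ} (T : PStr L k) {D : DVal L → ℤ} (hD : T.IsDiv D) (i : Fin k) :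
    (T.clD D).2 i = ∑ᶠ v ∈ T.C, D v * mul (T.R i) v := by
  unfold PStr.clD
  have h := AddMonoidHom.map_finsum_mem' (s := T.C) (f := fun v => D v • T.cl v)
    ((Pi.evalAddMonoidHom (fun _ : Fin k => ℤ) i).comp (AddMonoidHom.snd ℤ (Fin k → ℤ)))
    (div_inter T hD _ (fun v h => by simp only [h, zero_smul]) _ (Set.Subset.refl _))
  exact h

/-- The degree of the class of a divisor. -/
theorem clD_fst (h17 : ST_A17) {k : ℕ} (T : PStr L k) {D : DVal L → ℤ} (hD : T.IsDiv D) :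
    (T.clD D).1 = ∑ᶠ v ∈ PC T.S, D v * deg T.S v := by
  rw [clD_fst' T hD]
  refine finsum_mem_inter_support_eq' _ _ _ fun v hne => ?_
  constructor
  · intro hv
    refine ⟨hv.1, deg_ne fun h => hne (by simp only [h, mul_zero])⟩
  · intro hv
    exact PC_subset h17 T hv

/-- The multiplicities of the class of a divisor. -/
theorem clD_snd (h16 : ST_A16) (h17 : ST_A17) {k : ℕ} (T : PStr L k) {D : DVal L → ℤ}
    (hD : T.IsDiv D) (i : Fin k) {w : DVal L} (hw : IsOrd (T.R i) w) (hw0 : w.v 0 = 0) :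
    (T.clD D).2 i = (∑ᶠ v ∈ Thr (T.R i), D v * mul (T.R i) v) - D w := by
  obtain ⟨P, hP⟩ := exists_coord h16 T i
  have hwC : w ∈ T.C := ⟨hw0, (h17 L k T w).2 (Or.inr ⟨i, hw⟩)⟩
  rw [clD_snd' T hD]
  have h1 : ∑ᶠ v ∈ T.C, D v * mul (T.R i) v =
      ∑ᶠ v ∈ Thr (T.R i) ∪ {w}, D v * mul (T.R i) v := by
    refine finsum_mem_inter_support_eq' _ _ _ fun v hne => ?_
    constructor
    · intro hv
      rcases mul_ne (R := T.R i) (v := v) (fun h => hne (by simp only [h, mul_zero])) with h | h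
      · right
        exact DVal.ext' (st_A5 L _ v w h hw) (by rw [hv.1, hw0])
      · exact Or.inl ⟨hv.1, h⟩
    · rintro (hv | hv)
      · exact Thr_subset h17 T i hv
      · have hv' : v = w := hv
        rw [hv']; exact hwC
  rw [h1, finsum_mem_union']
  · rw [finsum_mem_singleton, mul_ord hw]
    ring
  · rw [Set.disjoint_singleton_right]
    rintro ⟨-, h⟩
    rw [← hP] at h hw
    exact not_through_of_isOrd hw h
  · exact div_inter T hD _ (fun v h => by simp only [h, zero_mul]) _ (Thr_subset h17 T i)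
  · exact (Set.finite_singleton w).inter_of_left _

/-- The curves of the surface. -/
theorem C_eq (h17 : ST_A17) {k : ℕ} (T : PStr L k) {w : Fin k → DVal L}
    (hw : ∀ i, IsOrd (T.R i) (w i)) (hw0 : ∀ i, (w i).v 0 = 0) :
    T.C = PC T.S ∪ Set.range w := by
  ext v
  constructor
  · rintro ⟨h0, h⟩
    rcases (h17 L k T v).1 h with h1 | ⟨i, hi⟩
    · exact Or.inl ⟨h0, h1⟩
    · right
      exact ⟨i, DVal.ext' (st_A5 L _ _ v (hw i) hi) (by rw [h0, hw0])⟩
  · rintro (h | ⟨i, rfl⟩)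
    · exact PC_subset h17 T h
    · exact ⟨hw0 i, (h17 L k T _).2 (Or.inr ⟨i, hw i⟩)⟩

/-- Normalised valuations of the exceptional curves. -/
theorem exists_w (h16 : ST_A16) {k : ℕ} (T : PStr L k) :
    ∃ w : Fin k → DVal L, (∀ i, IsOrd (T.R i) (w i)) ∧ ∀ i, (w i).v 0 = 0 := by
  choose P hP using exists_coord h16 T
  refine ⟨fun i => (P i).ord, fun i => ?_, fun i => ord_zero (P i)⟩
  have h := LCY.isOrd_ord (P i)
  rwa [hP i] at h

theorem finite_of_PC (h16 : ST_A16) (h17 : ST_A17) {k : ℕ} (T : PStr L k) {p : DVal L → Prop}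
    (h : {v | v ∈ PC T.S ∧ p v}.Finite) : {v | v ∈ T.C ∧ p v}.Finite := by
  obtain ⟨w, hw, hw0⟩ := exists_w h16 T
  refine (h.union (Set.finite_range w)).subset ?_
  rintro v ⟨hv, hp⟩
  rw [C_eq h17 T hw hw0] at hv
  rcases hv with hv | hv
  · exact Or.inl ⟨hv, hp⟩
  · exact Or.inr hv

/-- B1. -/
theorem st_B1 (h16 : ST_A16) (h17 : ST_A17) : ST_B1 := by
  intro L _ _ k T f hf
  have hps := plane_sum T.S f hf
  have hD : T.IsDiv (fun v => v.v f) := finite_of_PC h16 h17 T hps.1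
  refine ⟨hD, ?_⟩
  obtain ⟨w, hw, hw0⟩ := exists_w h16 T
  refine Prod.ext ?_ ?_
  · rw [clD_fst h17 T hD]
    exact hps.2
  · funext i
    rw [clD_snd h16 h17 T hD i (hw i) (hw0 i)]
    obtain ⟨P, hP⟩ := exists_coord h16 T i
    have h1 := st_A10 L P f hf
    have h2 := h1.2 (w i) (hP ▸ hw i)
    rw [← hP, ← h2, sub_self]
    rfl

end

end H81

end LCY
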