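import Pool.Agent.Helper81.LCY.Adic
import Pool.Agent.Helper62.LCY.B2
import Pool.Agent.Helper11.LCY.Stmts

/-!
MP_f7e214_ag, rows A5, A6, A7, A8, A9, A10, A12.
-/

open Polynomial

namespace LCY

namespace H81

noncomputable section

variable {L : Type} [Field L] [Algebra ℂ L]

theorem st_A12 : ST_A12 := fun _ _ hf hg => ⟨ordn_mul hf hg, tdeg_mul hf hg⟩

theorem st_A6 : ST_A6 := fun _ _ _ P v => through_iff P v

theorem st_A5 : ST_A5 := by
  intro L _ _ R v w ⟨P, hP, hv⟩ ⟨Q, hQ, hw⟩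
  have h1 : IsOrd P.loc v := ⟨P, rfl, hv⟩
  have h2 : IsOrd P.loc w := ⟨Q, by rw [hP, hQ], hw⟩
  have h3 := LCY.isOrd_iff.1 h1
  have h4 := LCY.isOrd_iff.1 h2
  intro a ha
  rw [h3 a ha, h4 a ha]

/-- A place is determined by its values (normalised at zero). -/
theorem DVal.ext' {v w : DVal L} (h : v.Same w) (h0 : v.v 0 = w.v 0) : v = w := by
  have : v.v = w.v := by
    funext a
    by_cases ha : a = 0
    · rw [ha, h0]
    · exact h a ha
  cases v
  cases w
  simp only at this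
  subst this
  rfl

theorem pval_zero (P : Coord L) {p : ℂ[X][X]} (hp : Prime p) : (P.pval p hp).v 0 = 0 := by
  show H62.pv P p 0 = 0
  unfold H62.pv
  rw [dif_neg (fun h => h rfl)]

theorem ord_zero (P : Coord L) : P.ord.v 0 = 0 := pval_zero _ _

theorem ord_nonneg {P : Coord L} {z : L} (hz : z ∈ P.loc) (hz0 : z ≠ 0) : 0 ≤ P.ord.v z := by
  obtain ⟨f, g, hg, rfl⟩ := hz
  have hg0 := ne_of_cf0 hg
  have hf0 : f ≠ 0 := by
    rintro rfl
    rw [map_zero, zero_div] at hz0
    exact hz0 rfl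
  rw [DVal.map_div _ (P.ne hf0) (P.ne hg0), ord_ev P hf0, ord_ev P hg0,
    (ordn_eq_zero hg0).2 hg]
  simp

/-- Elements of positive value at the curve `g` are multiples of `g`. -/
theorem div_mem {P : Coord L} {g : ℂ[X][X]} {v : DVal L} (h : IsAdic P g v)
    (h0 : cf g (0, 0) = 0) {z : L} (hz : z ∈ P.loc) (hv : v.Pos z) :
    z / ev P.x P.y g ∈ P.loc := by
  by_cases hz0 : z = 0
  · rw [hz0, zero_div]; exact P.loc.zero_mem
  obtain ⟨f, k, hk, rfl⟩ := hz
  have hk0 := ne_of_cf0 hk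
  have hf0 : f ≠ 0 := by
    rintro rfl
    rw [map_zero, zero_div] at hz0
    exact hz0 rfl
  have h1 := hv.resolve_left hz0
  rw [v.map_div (P.ne hf0) (P.ne hk0)] at h1
  have h2 : v.v (ev P.x P.y k) = 0 := val_unit P (adic_int_loc h h0) hk
  have h3 : g ∣ f := (IsAdic.pos_iff h hf0).1 (by omega)
  obtain ⟨c, rfl⟩ := h3
  refine ⟨c, k, hk, ?_⟩
  have h4 := P.ne h.1.ne_zero
  have h5 := P.ne hk0
  rw [map_mul]
  field_simp

theorem adic_cf0 {P Q : Coord L} {g g' : ℂ[X][X]} {v : DVal L} (hPQ : Q.loc = P.loc)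
    (h : IsAdic P g v) (h0 : cf g (0, 0) = 0) (h' : IsAdic Q g' v) : cf g' (0, 0) = 0 := by
  have h1 : Through P.loc v := (through_iff P v).2 ⟨g, h, h0⟩
  rw [← hPQ] at h1
  obtain ⟨g'', h2, h3⟩ := (through_iff Q v).1 h1
  exact cf0_associated (IsAdic.associated h2 h') h3

/-- The multiplicity does not depend on the coordinates. -/
theorem ordn_indep {P Q : Coord L} {g g' : ℂ[X][X]} {v : DVal L} (hPQ : Q.loc = P.loc)
    (h : IsAdic P g v) (h0 : cf g (0, 0) = 0) (h' : IsAdic Q g' v) : ordn g' = ordn g := by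
  have h0' := adic_cf0 hPQ h h0 h'
  have hs : P.ord.Same Q.ord := LCY.ord_same_of_loc hPQ.symm
  have ha := P.ne h.1.ne_zero
  have hb := Q.ne h'.1.ne_zero
  have h1 : ev Q.x Q.y g' / ev P.x P.y g ∈ P.loc :=
    div_mem h h0 (hPQ ▸ Q.ev_mem_loc g') (Or.inr (by rw [IsAdic.self h']; norm_num))
  have h2 : ev P.x P.y g / ev Q.x Q.y g' ∈ Q.loc :=
    div_mem h' h0' (hPQ ▸ P.ev_mem_loc g) (Or.inr (by rw [IsAdic.self h]; norm_num))
  have h3 := ord_nonneg h1 (div_ne_zero hb ha)
  have h4 := ord_nonneg h2 (div_ne_zero ha hb)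
  rw [DVal.map_div _ hb ha] at h3
  rw [DVal.map_div _ ha hb] at h4
  rw [hs _ hb] at h3
  rw [← hs _ ha] at h4
  rw [ord_ev Q h'.1.ne_zero, ord_ev P h.1.ne_zero] at h3 h4
  omega

theorem not_isOrd_of_adic {P : Coord L} {g : ℂ[X][X]} {v : DVal L} (h : IsAdic P g v)
    (h0 : cf g (0, 0) = 0) : ¬ IsOrd P.loc v := by
  intro ho
  have hs := LCY.isOrd_iff.1 ho
  by_cases h1 : g ∣ C X
  · have h2 : ¬ g ∣ X := fun h' => not_dvd_both h.1 h1 h'
    have h3 := IsAdic.zero_of h h2
    rw [hs _ (P.ne X_ne'), ord_ev P X_ne', ordn_X] at h3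
    norm_num at h3
  · have h3 := IsAdic.zero_of h h1
    rw [hs _ (P.ne CX_ne), ord_ev P CX_ne, ordn_CX] at h3
    norm_num at h3

theorem st_A7 : ST_A7 := by
  intro L _ _ P v g h h0
  refine ⟨?_, ?_⟩
  · unfold mul
    rw [if_neg (not_isOrd_of_adic h h0), if_pos ((through_iff P v).2 ⟨g, h, h0⟩)]
    have h1 : {n : ℕ | ∃ (Q : Coord L) (g' : ℂ[X][X]), Q.loc = P.loc ∧ IsAdic Q g' v ∧
        ordn g' = n} = {ordn g} := by
      ext n
      constructor
      · rintro ⟨Q, g', hQ, h', rfl⟩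
        exact ordn_indep hQ h h0 h'
      · intro hn
        exact ⟨P, g, rfl, h, hn.symm⟩
    rw [h1, csInf_singleton]
  · by_contra hlt
    exact (ordn_eq_zero h.1.ne_zero).1 (by omega) h0

theorem tdeg_pos {g : ℂ[X][X]} (hg : Irreducible g) : 1 ≤ tdeg g := by
  by_contra hlt
  have h1 : tdeg g = 0 := by omega
  have h2 : g = C (C (cf g (0, 0))) := by
    refine cf_ext fun e => ?_
    by_cases he : e = (0, 0)
    · rw [he]; simp [cf]
    · by_cases h3 : cf g e = 0
      · rw [h3]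
        by_contra h4
        exact he (cf_CC _ (fun h => h4 h.symm))
      · exfalso
        have h4 := le_tdeg h3
        exact he (Prod.ext (by dsimp only; omega) (by dsimp only; omega))
  have h3 : cf g (0, 0) ≠ 0 := by
    intro h
    rw [h, C_0, C_0] at h2
    exact hg.ne_zero h2
  apply hg.not_isUnit
  rw [h2]
  exact ((isUnit_iff_ne_zero.2 h3).map C).map C

theorem not_isInf_of_adic {S : Coord L} {g : ℂ[X][X]} {v : DVal L} (h : IsAdic S g v) :
    ¬ IsInf S v := by
  intro hi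
  have h1 := IsAdic.nonneg h CX_ne
  rw [hi _ CX_ne, tdeg_CX] at h1
  norm_num at h1

theorem st_A8 : ST_A8 := by
  intro L _ _ S v g h
  refine ⟨?_, tdeg_pos h.1, not_isInf_of_adic h⟩
  unfold deg
  rw [if_neg (not_isInf_of_adic h)]
  have h1 : {n : ℕ | ∃ g', IsAdic S g' v ∧ tdeg g' = n} = {tdeg g} := by
    ext n
    constructor
    · rintro ⟨g', h', rfl⟩
      exact (tdeg_associated h.1.ne_zero (IsAdic.associated h h')).symm
    · intro hn
      exact ⟨g, h, hn.symm⟩
  rw [h1, csInf_singleton]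

/-- A polynomial vanishing at the origin has a prime factor vanishing there. -/
theorem exists_prime_cf0 {f : ℂ[X][X]} (hf : f ≠ 0) (h0 : cf f (0, 0) = 0) :
    ∃ p, Prime p ∧ p ∣ f ∧ cf p (0, 0) = 0 := by
  induction f using UniqueFactorizationMonoid.induction_on_prime with
  | h₁ => exact absurd rfl hf
  | h₂ u hu =>
    exfalso
    obtain ⟨c, hc, rfl⟩ := unit_eq hu
    apply hc
    simpa [cf] using h0
  | h₃ a p ha hp ih =>
    rw [cf0_mul] at h0
    rcases mul_eq_zero.1 h0 with h1 | h1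
    · exact ⟨p, hp, dvd_mul_right _ _, h1⟩
    · obtain ⟨q, hq, h2, h3⟩ := ih ha h1
      exact ⟨q, hq, h2.mul_left _, h3⟩

theorem st_A9 : ST_A9 := by
  intro L _ _ P z
  constructor
  · intro hz v hv
    exact hv.1 z hz
  · intro h
    by_cases hz0 : z = 0
    · rw [hz0]; exact P.loc.zero_mem
    obtain ⟨⟨a, b⟩, ha, hb, h1⟩ := H62.rep P hz0
    dsimp only at ha hb h1
    obtain ⟨f, k, c, hrel, hca, hcb⟩ :=
      UniqueFactorizationMonoid.exists_reduced_factors a ha b
    have hc0 : c ≠ 0 := by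
      rintro rfl
      rw [zero_mul] at hca
      exact ha hca.symm
    have hf0 : f ≠ 0 := by
      rintro rfl
      rw [mul_zero] at hca
      exact ha hca.symm
    have hk0 : k ≠ 0 := by
      rintro rfl
      rw [mul_zero] at hcb
      exact hb hcb.symm
    have h2 : z = ev P.x P.y f / ev P.x P.y k := by
      rw [h1, ← hca, ← hcb, map_mul, map_mul, mul_div_mul_left _ _ (P.ne hc0)]
    by_cases hk : cf k (0, 0) = 0
    · exfalso
      obtain ⟨p, hp, hpk, hp0⟩ := exists_prime_cf0 hk0 hk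
      have h3 := adic_pval P hp
      have h4 := (h _ ((through_iff P _).2 ⟨p, h3, hp0⟩)).resolve_left hz0
      rw [h2, DVal.map_div _ (P.ne hf0) (P.ne hk0)] at h4
      have h5 := (IsAdic.pos_iff h3 hk0).2 hpk
      have h6 : ¬ p ∣ f := fun h7 => hp.not_isUnit (hrel h7 hpk)
      rw [IsAdic.zero_of h3 h6] at h4
      omega
    · exact ⟨f, k, hk, h2⟩

/-- Multiplicative induction on the nonzero elements of the field. -/
theorem mul_induction (P : Coord L) (Φ : L → Prop)
    (hmul : ∀ a b, a ≠ 0 → b ≠ 0 → Φ a → Φ b → Φ (a * b))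
    (hinv : ∀ a, a ≠ 0 → Φ a → Φ a⁻¹) (hc : ∀ c : ℂ, c ≠ 0 → Φ (algebraMap ℂ L c))
    (hp : ∀ p : ℂ[X][X], Prime p → Φ (ev P.x P.y p)) : ∀ z, z ≠ 0 → Φ z := by
  have h1 : ∀ f : ℂ[X][X], f ≠ 0 → Φ (ev P.x P.y f) := by
    intro f
    induction f using UniqueFactorizationMonoid.induction_on_prime with
    | h₁ => intro h; exact absurd rfl h
    | h₂ u hu =>
      intro _
      obtain ⟨c, hc0, rfl⟩ := unit_eq hu
      rw [ev_CC]
      exact hc c hc0
    | h₃ a p ha hp' ih =>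
      intro _
      rw [map_mul]
      exact hmul _ _ (P.ne hp'.ne_zero) (P.ne ha) (hp p hp') (ih ha)
  intro z hz
  obtain ⟨⟨f, k⟩, hf, hk, h2⟩ := H62.rep P hz
  rw [h2, div_eq_mul_inv]
  exact hmul _ _ (P.ne hf) (inv_ne_zero (P.ne hk)) (h1 f hf) (hinv _ (P.ne hk) (h1 k hk))

/-- A sum over a set of places of the values of an element: additive in the element. -/
def SumOK (A : Set (DVal L)) (m : DVal L → ℤ) (φ : L → ℤ) (z : L) : Prop :=
  {v | v ∈ A ∧ v.v z ≠ 0}.Finite ∧ φ z = ∑ᶠ v ∈ A, v.v z * m v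

theorem SumOK.mul {A : Set (DVal L)} {m : DVal L → ℤ} {φ : L → ℤ} {a b : L} (ha : a ≠ 0)
    (hb : b ≠ 0) (hφ : φ (a * b) = φ a + φ b) (h1 : SumOK A m φ a) (h2 : SumOK A m φ b) :
    SumOK A m φ (a * b) := by
  have hsub : {v | v ∈ A ∧ v.v (a * b) ≠ 0} ⊆
      {v | v ∈ A ∧ v.v a ≠ 0} ∪ {v | v ∈ A ∧ v.v b ≠ 0} := by
    rintro v ⟨hv, hne⟩
    rw [v.map_mul a b ha hb] at hne
    by_cases h : v.v a = 0
    · right
      exact ⟨hv, fun h' => hne (by rw [h, h', add_zero])⟩
    · exact Or.inl ⟨hv, h⟩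
  refine ⟨(h1.1.union h2.1).subset hsub, ?_⟩
  rw [hφ, h1.2, h2.2, ← finsum_mem_add_distrib']
  · refine finsum_mem_congr rfl fun v _ => ?_
    rw [v.map_mul a b ha hb]
    ring
  · refine h1.1.subset ?_
    rintro v ⟨hv, hne⟩
    exact ⟨hv, fun h => hne (by simp only [h, zero_mul])⟩
  · refine h2.1.subset ?_
    rintro v ⟨hv, hne⟩
    exact ⟨hv, fun h => hne (by simp only [h, zero_mul])⟩

theorem SumOK.inv {A : Set (DVal L)} {m : DVal L → ℤ} {φ : L → ℤ} {a : L} (ha : a ≠ 0)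
    (hφ : φ a⁻¹ = - φ a) (h1 : SumOK A m φ a) : SumOK A m φ a⁻¹ := by
  refine ⟨?_, ?_⟩
  · refine h1.1.subset ?_
    rintro v ⟨hv, hne⟩
    rw [v.map_inv ha] at hne
    exact ⟨hv, fun h => hne (by rw [h, neg_zero])⟩
  · rw [hφ, h1.2, ← finsum_neg_distrib]
    refine finsum_congr fun v => ?_
    rw [← finsum_neg_distrib]
    refine finsum_congr fun _ => ?_
    rw [v.map_inv ha]
    ring

theorem SumOK.of_zero {A : Set (DVal L)} {m : DVal L → ℤ} {φ : L → ℤ} {a : L}
    (hφ : φ a = 0) (h : ∀ v ∈ A, v.v a = 0) : SumOK A m φ a := by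
  have h1 : {v | v ∈ A ∧ v.v a ≠ 0} = ∅ := by
    ext v
    constructor
    · rintro ⟨hv, hne⟩
      exact hne (h v hv)
    · intro h; exact h.elim
  refine ⟨by rw [h1]; exact Set.finite_empty, ?_⟩
  rw [hφ, finsum_mem_eq_zero_of_forall_eq_zero]
  intro v hv
  rw [h v hv, zero_mul]

theorem pval_mem_Thr (P : Coord L) {p : ℂ[X][X]} (hp : Prime p) (h0 : cf p (0, 0) = 0) :
    P.pval p hp ∈ Thr P.loc :=
  ⟨pval_zero P hp, (through_iff P _).2 ⟨p, adic_pval P hp, h0⟩⟩

/-- The only curve through the point at which the prime `p` has a nonzero value. -/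
theorem eq_pval {P : Coord L} {p : ℂ[X][X]} (hp : Prime p) {v : DVal L} (hv : v ∈ Thr P.loc)
    (hne : v.v (ev P.x P.y p) ≠ 0) : v = P.pval p hp := by
  obtain ⟨g, hg, hg0⟩ := (through_iff P v).1 hv.2
  have h1 : g ∣ p := by
    by_contra h
    exact hne (IsAdic.zero_of hg h)
  have h2 : Associated g p := hg.1.associated_of_dvd hp.irreducible h1
  exact DVal.ext' (IsAdic.same (IsAdic.of_associated hg h2) (adic_pval P hp))
    (by rw [hv.1, pval_zero])

theorem st_A10 : ST_A10 := by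
  intro L _ _ P z hz
  have key : ∀ z : L, z ≠ 0 → SumOK (Thr P.loc) (mul P.loc) P.ord.v z := by
    refine mul_induction P _ ?_ ?_ ?_ ?_
    · intro a b ha hb h1 h2
      exact SumOK.mul ha hb (P.ord.map_mul a b ha hb) h1 h2
    · intro a ha h1
      exact SumOK.inv ha (P.ord.map_inv ha) h1
    · intro c hc
      exact SumOK.of_zero (P.ord.map_const c hc) fun v _ => v.map_const c hc
    · intro p hp
      by_cases h0 : cf p (0, 0) = 0
      · have hmem := pval_mem_Thr P hp h0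
        have hval : (P.pval p hp).v (ev P.x P.y p) = 1 := IsAdic.self (adic_pval P hp)
        have hset : {v | v ∈ Thr P.loc ∧ v.v (ev P.x P.y p) ≠ 0} = {P.pval p hp} := by
          ext v
          constructor
          · rintro ⟨hv, hne⟩
            exact eq_pval hp hv hne
          · intro hv
            have hv' : v = P.pval p hp := hv
            rw [hv']
            exact ⟨hmem, by rw [hval]; norm_num⟩
        refine ⟨by rw [hset]; exact Set.finite_singleton _, ?_⟩
        rw [finsum_mem_inter_support_eq' _ (Thr P.loc) {P.pval p hp}]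
        · rw [finsum_mem_singleton, hval, one_mul, ord_ev P hp.ne_zero,
            (st_A7 L P _ p (adic_pval P hp) h0).1]
        · intro v hne
          constructor
          · intro hv
            have h1 : v.v (ev P.x P.y p) ≠ 0 := fun h => hne (by simp only [h, zero_mul])
            exact eq_pval hp hv h1
          · intro hv
            have hv' : v = P.pval p hp := hv
            exact hv' ▸ hmem
      · refine SumOK.of_zero ?_ fun v hv => val_unit P hv.2.1 h0
        rw [ord_ev P hp.ne_zero, (ordn_eq_zero hp.ne_zero).2 h0]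
        rfl
  obtain ⟨h1, h2⟩ := key z hz
  refine ⟨h1, fun w hw => ?_⟩
  rw [← h2]
  exact LCY.isOrd_iff.1 hw z hz

end

end H81

end LCY
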