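import Pool.Agent.Helper81.LCY.SMe

/-!
MP_f7e214_ag, row BR7DV1, part a: the components of `D` through a singular point.
-/

open MvPolynomial

namespace LCY

namespace H81

noncomputable section

open IsLocalRing

/-- A local ring with two generators of the maximal ideal and a prime strictly between zero and
the maximal ideal is regular. -/
theorem regular_of_two {O : Type} [CommRing O] [IsDomain O] [IsLocalRing O]
    [IsNoetherianRing O] {x y : O} (hm : maximalIdeal O = Ideal.span {x, y}) (P : Ideal O)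
    [hP : P.IsPrime] (hP0 : P ≠ ⊥) (hPm : P ≠ maximalIdeal O) : IsRegularLocalRing O := by
  apply IsRegularLocalRing.of_spanFinrank_maximalIdeal_le
  have h1 : (maximalIdeal O).spanFinrank ≤ 2 := by
    have hfin : ({x, y} : Set O).Finite := Set.toFinite _
    have h2 := Submodule.spanFinrank_span_le_ncard_of_finite (R := O) hfin
    have h3 : ({x, y} : Set O).ncard ≤ 2 := by
      have := Set.ncard_insert_le x {y}
      rw [Set.ncard_singleton] at this
      exact this
    rw [hm]
    exact h2.trans h3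
  have h2 : (2 : WithBot ℕ∞) ≤ ringKrullDim O := by
    have hlt : P < maximalIdeal O :=
      lt_of_le_of_ne (IsLocalRing.le_maximalIdeal hP.ne_top) hPm
    have h3 := Ideal.height_add_one_le_of_lt_of_isPrime hlt
    have h4 := Ideal.height_add_one_le_of_lt_of_isPrime (bot_lt_iff_ne_bot.2 hP0)
    have h5 := IsLocalRing.maximalIdeal_height_eq_ringKrullDim (R := O)
    rw [← h5]
    have h6 : (2 : ℕ∞) ≤ (maximalIdeal O).height := by
      have h7 : (1 : ℕ∞) ≤ P.height := by
        refine le_trans ?_ h4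
        exact le_add_self
      calc (2 : ℕ∞) = 1 + 1 := by norm_num
        _ ≤ P.height + 1 := by gcongr
        _ ≤ _ := h3
    have h8 : ((2 : ℕ∞) : WithBot ℕ∞) ≤ ((maximalIdeal O).height : WithBot ℕ∞) :=
      WithBot.coe_le_coe.2 h6
    exact h8
  refine le_trans ?_ h2
  exact_mod_cast h1

variable {N : ℕ} {Y : Var N} {p : Fin (N + 1) → ℂ}

/-- Transversality at any point: the maximal ideal is the sum of the ideals of the two
components. -/
theorem max_eq_sup {C C' : Var N} (hYC : Y.IsCurveOn C) (hYC' : Y.IsCurveOn C')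
    (hC : C.IsPt p) (hC' : C'.IsPt p) [IsLocalRing (Y.locRing (ptIdeal p))]
    (ht : ∀ f ∈ ptIdeal p, ∃ g, g ∉ ptIdeal p ∧ g * f ∈ C.I ⊔ C'.I)
    {v v' : DVal Y.L} (hv : ∀ a, v.Int a ↔ a ∈ Y.locRing C.I)
    (hv' : ∀ a, v'.Int a ↔ a ∈ Y.locRing C'.I) :
    maximalIdeal (Y.locRing (ptIdeal p)) =
      pI (Y.locRing (ptIdeal p)) v (loc_le_curve hC hv) ⊔
      pI (Y.locRing (ptIdeal p)) v' (loc_le_curve hC' hv') := by
  have hp := isPt_of_curve hYC hC
  apply le_antisymm
  · intro z hz
    obtain ⟨n, F, G, hF, hG, hGJ, hGI, hzz⟩ := z.2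
    have hFp : F ∈ ptIdeal p := (mem_max_iff hp z hF hG hGJ hGI hzz).1 hz
    obtain ⟨g, hg, hgF⟩ := ht F hFp
    have h1 : ∃ m, homogeneousComponent m g ∉ ptIdeal p := by
      by_contra hc
      push Not at hc
      apply hg
      rw [← MvPolynomial.sum_homogeneousComponent g]
      exact Ideal.sum_mem _ fun m _ => hc m
    obtain ⟨m, hm⟩ := h1
    set gm := homogeneousComponent m g with hgm
    have hgmh : gm.IsHomogeneous m := homogeneousComponent_isHomogeneous m g
    have h2 : homogeneousComponent (m + n) (g * F) = gm * F := by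
      conv_lhs => rw [← MvPolynomial.sum_homogeneousComponent g, Finset.sum_mul, map_sum]
      rw [Finset.sum_eq_single m]
      · rw [homogeneousComponent_of_mem (n := m + n)
          ((homogeneousComponent_isHomogeneous m g).mul hF), if_pos rfl]
      · intro j _ hj
        rw [homogeneousComponent_of_mem (n := j + n)
          ((homogeneousComponent_isHomogeneous j g).mul hF), if_neg (by omega)]
      · intro hnot
        have h3 : homogeneousComponent m g = 0 := by
          apply homogeneousComponent_eq_zero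
          by_contra h4
          exact hnot (Finset.mem_range.2 (by omega))
        rw [h3, zero_mul, map_zero]
    obtain ⟨A, hA, A', hA', hsum⟩ := Submodule.mem_sup.1 hgF
    have h3 : homogeneousComponent (m + n) A + homogeneousComponent (m + n) A' = gm * F := by
      rw [← map_add, hsum, h2]
    have hAm := C.homogeneous A hA (m + n)
    have hAm' := C'.homogeneous A' hA' (m + n)
    set a := homogeneousComponent (m + n) A with ha
    set a' := homogeneousComponent (m + n) A' with ha'
    have hah : a.IsHomogeneous (m + n) := homogeneousComponent_isHomogeneous _ _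
    have hah' : a'.IsHomogeneous (m + n) := homogeneousComponent_isHomogeneous _ _
    have hGG : (gm * G).IsHomogeneous (m + n) := hgmh.mul hG
    have hGGp : gm * G ∉ ptIdeal p := fun h =>
      ((inferInstance : (ptIdeal p).IsPrime).mem_or_mem h).elim hm hGJ
    have hGGY : gm * G ∉ Y.I := fun h => hGGp (Y.le_ptIdeal p hp h)
    have hGGC : gm * G ∉ C.I := fun h => hGGp (C.le_ptIdeal p hC h)
    have hGGC' : gm * G ∉ C'.I := fun h => hGGp (C'.le_ptIdeal p hC' h)
    set z1 : Y.locRing (ptIdeal p) := ⟨⟨Y.cls a / Y.cls (gm * G),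
      ⟨m + n, a, gm * G, hah, hGG, hGGY, hGGY, rfl⟩⟩,
      ⟨m + n, a, gm * G, hah, hGG, hGGp, hGGY, rfl⟩⟩ with hz1
    set z2 : Y.locRing (ptIdeal p) := ⟨⟨Y.cls a' / Y.cls (gm * G),
      ⟨m + n, a', gm * G, hah', hGG, hGGY, hGGY, rfl⟩⟩,
      ⟨m + n, a', gm * G, hah', hGG, hGGp, hGGY, rfl⟩⟩ with hz2
    have h4 : z = z1 + z2 := by
      apply Subtype.ext
      apply Subtype.ext
      change ((z : Y.L) : Y.K) = Y.cls a / Y.cls (gm * G) + Y.cls a' / Y.cls (gm * G)
      have hgmY : gm ∉ Y.I := fun h => hm (Y.le_ptIdeal p hp h)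
      rw [← add_div, ← Var.cls_add, h3, Var.cls_mul, Var.cls_mul, hzz,
        mul_div_mul_left _ _ (Y.cls_ne hgmY)]
    have h5 : z1 ∈ pI (Y.locRing (ptIdeal p)) v (loc_le_curve hC hv) :=
      pos_of_not_unit hYC.1 hv hah hGG hGGC hAm rfl
    have h6 : z2 ∈ pI (Y.locRing (ptIdeal p)) v' (loc_le_curve hC' hv') :=
      pos_of_not_unit hYC'.1 hv' hah' hGG hGGC' hAm' rfl
    rw [h4]
    exact Submodule.add_mem_sup h5 h6
  · exact sup_le (pI_le _ _ _) (pI_le _ _ _)

/-- The generators of the maximal ideal adapted to two components. -/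
theorem two_comp {O : Type} [CommRing O] {M P P' : Ideal O} {u u' e : O}
    (hsup : M = P ⊔ P') (hu : M = Ideal.span {u} ⊔ P) (hu' : M = Ideal.span {u'} ⊔ P')
    (he : P ⊓ P' = Ideal.span {e}) :
    ∃ s ∈ P', ∃ t ∈ P, M = Ideal.span {s} ⊔ P ∧ M = Ideal.span {t} ⊔ P' ∧
      M = Ideal.span {e, s, t} := by
  have key : ∀ {P P' : Ideal O} {u : O}, M = P ⊔ P' → M = Ideal.span {u} ⊔ P →
      ∃ s ∈ P', M = Ideal.span {s} ⊔ P := by
    intro P P' u hsup hu
    have h1 : u ∈ M := by
      rw [hu]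
      exact (le_sup_left : Ideal.span {u} ≤ _) (Ideal.mem_span_singleton_self u)
    rw [hsup] at h1
    obtain ⟨a, ha, s, hs, has⟩ := Submodule.mem_sup.1 h1
    refine ⟨s, hs, le_antisymm ?_ ?_⟩
    · rw [hu]
      refine sup_le ?_ le_sup_right
      rw [Ideal.span_le, Set.singleton_subset_iff, ← has, add_comm]
      exact Submodule.add_mem_sup (Ideal.mem_span_singleton_self s) ha
    · refine sup_le ?_ (hsup ▸ le_sup_left)
      rw [Ideal.span_le, Set.singleton_subset_iff, hsup]
      exact (le_sup_right : P' ≤ P ⊔ P') hs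
  obtain ⟨s, hs, hMs⟩ := key hsup hu
  obtain ⟨t, ht, hMt⟩ := key (by rw [hsup, sup_comm]) hu'
  refine ⟨s, hs, t, ht, hMs, hMt, le_antisymm ?_ ?_⟩
  · intro z hz
    have hz' := hz
    rw [hMs] at hz'
    obtain ⟨b, hb, a, ha, hab⟩ := Submodule.mem_sup.1 hz'
    have haM : a ∈ M := by
      rw [hsup]; exact (le_sup_left : P ≤ P ⊔ P') ha
    rw [hMt] at haM
    obtain ⟨c, hc, d, hd, hcd⟩ := Submodule.mem_sup.1 haM
    have hcP : c ∈ P := (Ideal.span_le.2 (Set.singleton_subset_iff.2 ht) : _) hc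
    have hdP : d ∈ P := by
      have : d = a - c := by rw [← hcd]; ring
      rw [this]
      exact P.sub_mem ha hcP
    have hde : d ∈ Ideal.span {e} := by
      rw [← he]; exact ⟨hdP, hd⟩
    have hsub : ∀ w ∈ ({e, s, t} : Set O), Ideal.span {w} ≤ Ideal.span {e, s, t} := by
      intro w hw
      rw [Ideal.span_le, Set.singleton_subset_iff]
      exact Ideal.subset_span hw
    rw [← hab, ← hcd]
    refine Ideal.add_mem _ (hsub s (by simp) hb) (Ideal.add_mem _ (hsub t (by simp) hc)
      (hsub e (by simp) hde))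
  · rw [Ideal.span_le]
    have heP : e ∈ P ⊓ P' := by rw [he]; exact Ideal.mem_span_singleton_self e
    rintro w (rfl | rfl | hw)
    · rw [SetLike.mem_coe, hsup]
      exact (le_sup_left : P ≤ P ⊔ P') heP.1
    · rw [SetLike.mem_coe, hsup]
      exact (le_sup_right : P' ≤ P ⊔ P') hs
    · rw [Set.mem_singleton_iff] at hw
      rw [hw, SetLike.mem_coe, hsup]
      exact (le_sup_left : P ≤ P ⊔ P') ht

/-- A local equation of the sum of two components generates the intersection of their
ideals. -/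
theorem inter_eq (hY : Y.HasDim 2) (hN : Y.Normal) {C C' : Var N} (hYC : Y.IsCurveOn C)
    (hC : C.IsPt p) (hC' : C'.IsPt p)
    {v v' : DVal Y.L} (hv : ∀ a, v.Int a ↔ a ∈ Y.locRing C.I)
    (hv' : ∀ a, v'.Int a ↔ a ∈ Y.locRing C'.I) {e : Y.locRing (ptIdeal p)}
    (he0 : (e : Y.L) ≠ 0) (hev : v.v (e : Y.L) = 1) (hev' : v'.v (e : Y.L) = 1)
    (h : ∀ (E : Var N) (w : DVal Y.L), Y.IsCurveOn E → E.IsPt p → E ≠ C → E ≠ C' →
      (∀ a, w.Int a ↔ a ∈ Y.locRing E.I) → w.v (e : Y.L) = 0) :
    pI (Y.locRing (ptIdeal p)) v (loc_le_curve hC hv) ⊓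
      pI (Y.locRing (ptIdeal p)) v' (loc_le_curve hC' hv') = Ideal.span {e} := by
  have hp := isPt_of_curve hYC hC
  apply le_antisymm
  · rintro z ⟨hz, hz'⟩
    by_cases hz0 : (z : Y.L) = 0
    · have : z = 0 := Subtype.ext hz0
      rw [this]; exact Ideal.zero_mem _
    have h1 : (z : Y.L) / (e : Y.L) ∈ Y.locRing (ptIdeal p) := by
      refine br5 N Y hY hN p hp _ fun E hE hEp => ?_
      obtain ⟨w, hw⟩ := br3 N Y hY hN E hE
      rw [← hw]
      right
      rw [w.map_div hz0 he0]
      by_cases hEC : E = C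
      · subst hEC
        have hs := same_of_int (fun a => by rw [hw, hv] : ∀ a, w.Int a ↔ v.Int a)
        rw [hs _ hz0, hs _ he0, hev]
        have := (mem_pI.1 hz).resolve_left hz0
        omega
      by_cases hEC' : E = C'
      · subst hEC'
        have hs := same_of_int (fun a => by rw [hw, hv'] : ∀ a, w.Int a ↔ v'.Int a)
        rw [hs _ hz0, hs _ he0, hev']
        have := (mem_pI.1 hz').resolve_left hz0
        omega
      rw [h E w hE hEp hEC hEC' hw]
      have := (loc_le_curve hEp hw _ z.2).resolve_left hz0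
      omega
    rw [Ideal.mem_span_singleton']
    refine ⟨⟨(z : Y.L) / (e : Y.L), h1⟩, ?_⟩
    apply Subtype.ext
    change (z : Y.L) / (e : Y.L) * (e : Y.L) = z
    field_simp
  · rw [Ideal.span_le, Set.singleton_subset_iff]
    exact ⟨Or.inr (by omega), Or.inr (by omega)⟩

/-- The same for one component. -/
theorem inter_eq_one (hY : Y.HasDim 2) (hN : Y.Normal) {C : Var N} (hYC : Y.IsCurveOn C)
    (hC : C.IsPt p) {v : DVal Y.L} (hv : ∀ a, v.Int a ↔ a ∈ Y.locRing C.I)
    {e : Y.locRing (ptIdeal p)} (he0 : (e : Y.L) ≠ 0) (hev : v.v (e : Y.L) = 1)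
    (h : ∀ (E : Var N) (w : DVal Y.L), Y.IsCurveOn E → E.IsPt p → E ≠ C →
      (∀ a, w.Int a ↔ a ∈ Y.locRing E.I) → w.v (e : Y.L) = 0) :
    pI (Y.locRing (ptIdeal p)) v (loc_le_curve hC hv) = Ideal.span {e} := by
  have h1 := inter_eq hY hN hYC hC hC hv hv he0 hev hev
    (fun E w hE hEp hEC _ hw => h E w hE hEp hEC hw)
  rw [inf_idem] at h1
  exact h1

/-- A point through which passes exactly one component of `D`, with a local equation, is
regular. -/
theorem one_comp {C : Var N} (hYC : Y.IsCurveOn C)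
    (hC : C.IsPt p) (hreg : C.Regular p) {v : DVal Y.L}
    (hv : ∀ a, v.Int a ↔ a ∈ Y.locRing C.I) {e : Y.locRing (ptIdeal p)}
    (he : pI (Y.locRing (ptIdeal p)) v (loc_le_curve hC hv) = Ideal.span {e}) :
    Y.Regular p := by
  have hp := isPt_of_curve hYC hC
  have hloc := Y.isLocalRing_locRing (ptIdeal p) (Y.le_ptIdeal p hp)
  obtain ⟨i, hi⟩ := exists_chart hp.1
  have hnoeth := Y.noeth_locRing (ptIdeal p) (Y.le_ptIdeal p hp) hi
  obtain ⟨u, hu⟩ := exists_u hYC hC hreg hv
  have hm : maximalIdeal (Y.locRing (ptIdeal p)) = Ideal.span {u, e} := by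
    rw [hu, he, Ideal.span_insert]
  refine regular_of_two hm (pI (Y.locRing (ptIdeal p)) v (loc_le_curve hC hv)) ?_
    (pI_ne hYC hC hv)
  intro h0
  obtain ⟨hf0, -⟩ := val_gen hYC hC hv he
  rw [h0] at he
  have h1 : e ∈ (⊥ : Ideal (Y.locRing (ptIdeal p))) := by
    rw [he]; exact Ideal.mem_span_singleton_self e
  rw [Ideal.mem_bot] at h1
  apply hf0
  rw [h1]
  rfl

end

end H81

end LCY
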