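import Pool.Agent.Helper81.LCY.Ord
import Pool.Agent.Helper51.LCY.P3

/-!
MP_f7e214_ag, rows A6, A7, A8, A9: the curves through a point, their multiplicities, the degree
of a plane curve, and the local ring as the intersection of the rings of the curves through
the point.
-/

open Polynomial

namespace LCY

namespace H81

noncomputable section

variable {L : Type} [Field L] [Algebra ℂ L]

theorem cf0_mul (f g : ℂ[X][X]) : cf (f * g) (0, 0) = cf f (0, 0) * cf g (0, 0) := by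
  simp [cf, mul_coeff_zero]

theorem cf0_one : cf (1 : ℂ[X][X]) (0, 0) = 1 := by simp [cf]

theorem ne_of_cf0 {f : ℂ[X][X]} {e : ℕ × ℕ} (h : cf f e ≠ 0) : f ≠ 0 := by
  rintro rfl
  simp [cf] at h

theorem cf0_X : cf (X : ℂ[X][X]) (0, 0) = 0 := by simp [cf]

theorem cf0_CX : cf (C X : ℂ[X][X]) (0, 0) = 0 := by simp [cf]

theorem ordn_eq_zero {f : ℂ[X][X]} (hf : f ≠ 0) : ordn f = 0 ↔ cf f (0, 0) ≠ 0 := by
  constructor
  · intro h
    obtain ⟨e, he, h1⟩ := ordn_spec hf
    have h2 : e = (0, 0) := Prod.ext (by dsimp only; omega) (by dsimp only; omega)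
    rwa [h2] at he
  · intro h
    have := ordn_le h
    dsimp only at this
    omega

theorem inv_mem_loc (P : Coord L) {f : ℂ[X][X]} (h : cf f (0, 0) ≠ 0) :
    (ev P.x P.y f)⁻¹ ∈ P.loc :=
  ⟨1, f, h, by rw [map_one, one_div]⟩

theorem inv_notMem_loc (P : Coord L) {f : ℂ[X][X]} (hf : f ≠ 0) (h : cf f (0, 0) = 0) :
    (ev P.x P.y f)⁻¹ ∉ P.loc := by
  rintro ⟨a, b, hb, h1⟩
  have hb0 : b ≠ 0 := ne_of_cf0 hb
  have h2 : b = a * f := by
    rw [← sub_eq_zero]
    apply P.inj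
    rw [map_sub, map_mul, sub_eq_zero]
    have h3 := P.ne hf
    have h4 := P.ne hb0
    field_simp at h1
    linear_combination h1
  rw [h2, cf0_mul, h, mul_zero] at hb
  exact hb rfl

/-- The non-units of the local ring. -/
theorem nonunit_rep {P : Coord L} {z : L} (hz : z ∈ P.loc) (h : z⁻¹ ∉ P.loc) :
    ∃ f g : ℂ[X][X], cf g (0, 0) ≠ 0 ∧ cf f (0, 0) = 0 ∧ z = ev P.x P.y f / ev P.x P.y g := by
  obtain ⟨f, g, hg, h1⟩ := hz
  refine ⟨f, g, hg, ?_, h1⟩
  by_contra hf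
  exact h ⟨g, f, hf, by rw [h1, inv_div]⟩

/-! ### Valuations of primes -/

theorem adic_pval (P : Coord L) {g : ℂ[X][X]} (hg : Prime g) : IsAdic P g (P.pval g hg) := by
  refine ⟨hg.irreducible, fun n f hf => ?_⟩
  have hf0 : f ≠ 0 := fun h => hf (h ▸ dvd_zero g)
  rw [P.pval_ev hg (mul_ne_zero (pow_ne_zero _ hg.ne_zero) hf0)]
  have h1 : multiplicity g (g ^ n * f) = n := by
    apply multiplicity_eq_of_dvd_of_not_dvd (dvd_mul_right _ _)
    intro h
    rw [pow_succ] at h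
    exact hf ((mul_dvd_mul_iff_left (pow_ne_zero _ hg.ne_zero)).1 h)
  rw [h1]

theorem IsAdic.prime {P : Coord L} {g : ℂ[X][X]} {v : DVal L} (h : IsAdic P g v) : Prime g :=
  h.1.prime

theorem IsAdic.val {P : Coord L} {g : ℂ[X][X]} {v : DVal L} (h : IsAdic P g v) {f : ℂ[X][X]}
    (hf : f ≠ 0) : v.v (ev P.x P.y f) = multiplicity g f := by
  obtain ⟨c, hc, hc2⟩ :=
    (H62.fin_mult (IsAdic.prime h) hf).exists_eq_pow_mul_and_not_dvd
  conv_lhs => rw [hc]
  exact h.2 _ _ hc2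

theorem IsAdic.nonneg {P : Coord L} {g : ℂ[X][X]} {v : DVal L} (h : IsAdic P g v) {f : ℂ[X][X]}
    (hf : f ≠ 0) : 0 ≤ v.v (ev P.x P.y f) := by
  rw [IsAdic.val h hf]
  exact Int.natCast_nonneg _

theorem IsAdic.pos_iff {P : Coord L} {g : ℂ[X][X]} {v : DVal L} (h : IsAdic P g v)
    {f : ℂ[X][X]} (hf : f ≠ 0) : 0 < v.v (ev P.x P.y f) ↔ g ∣ f := by
  rw [IsAdic.val h hf, ← dvd_iff_multiplicity_pos]
  exact Int.natCast_pos

theorem IsAdic.zero_of {P : Coord L} {g : ℂ[X][X]} {v : DVal L} (h : IsAdic P g v)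
    {f : ℂ[X][X]} (hf : ¬ g ∣ f) : v.v (ev P.x P.y f) = 0 := by
  have hf0 : f ≠ 0 := fun h => hf (h ▸ dvd_zero g)
  have h1 := IsAdic.nonneg h hf0
  have h2 := (not_congr (IsAdic.pos_iff h hf0)).2 hf
  omega

theorem IsAdic.self {P : Coord L} {g : ℂ[X][X]} {v : DVal L} (h : IsAdic P g v) :
    v.v (ev P.x P.y g) = 1 := by
  rw [IsAdic.val h h.1.ne_zero, multiplicity_self]
  rfl

theorem IsAdic.same {P : Coord L} {g : ℂ[X][X]} {v w : DVal L} (h : IsAdic P g v)
    (h' : IsAdic P g w) : v.Same w := by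
  intro a ha
  obtain ⟨⟨f, k⟩, hf, hk, h1⟩ := H62.rep P ha
  rw [h1, v.map_div (P.ne hf) (P.ne hk), w.map_div (P.ne hf) (P.ne hk), IsAdic.val h hf,
    IsAdic.val h hk, IsAdic.val h' hf, IsAdic.val h' hk]

theorem IsAdic.of_same {P : Coord L} {g : ℂ[X][X]} {v w : DVal L} (h : IsAdic P g v)
    (h' : v.Same w) : IsAdic P g w := by
  refine ⟨h.1, fun n f hf => ?_⟩
  have hf0 : f ≠ 0 := fun h => hf (h ▸ dvd_zero g)
  rw [← h' _ (P.ne (mul_ne_zero (pow_ne_zero _ h.1.ne_zero) hf0))]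
  exact h.2 n f hf

theorem IsAdic.associated {P : Coord L} {g g' : ℂ[X][X]} {v : DVal L} (h : IsAdic P g v)
    (h' : IsAdic P g' v) : Associated g g' := by
  apply h.1.associated_of_dvd h'.1
  rw [← IsAdic.pos_iff h h'.1.ne_zero, IsAdic.self h']
  exact one_pos

theorem IsAdic.of_associated {P : Coord L} {g g' : ℂ[X][X]} {v : DVal L} (h : IsAdic P g v)
    (ha : Associated g g') : IsAdic P g' v := by
  refine ⟨ha.irreducible h.1, fun n f hf => ?_⟩
  obtain ⟨u, rfl⟩ := ha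
  rw [mul_pow, mul_assoc]
  apply h.2
  intro h1
  apply hf
  have h2 : g ∣ f := by
    have h3 : IsUnit ((u : ℂ[X][X]) ^ n) := u.isUnit.pow n
    exact (h3.dvd_mul_left).1 h1
  exact (u.isUnit.mul_right_dvd).2 h2

theorem unit_eq {u : ℂ[X][X]} (hu : IsUnit u) : ∃ c : ℂ, c ≠ 0 ∧ u = C (C c) := by
  rw [Polynomial.isUnit_iff] at hu
  obtain ⟨r, hr, rfl⟩ := hu
  rw [Polynomial.isUnit_iff] at hr
  obtain ⟨c, hc, rfl⟩ := hr
  exact ⟨c, hc.ne_zero, rfl⟩

theorem CC_ne {c : ℂ} (hc : c ≠ 0) : (C (C c) : ℂ[X][X]) ≠ 0 := by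
  rw [Ne, C_eq_zero, C_eq_zero]; exact hc

theorem ordn_associated {g g' : ℂ[X][X]} (hg : g ≠ 0) (h : Associated g g') :
    ordn g = ordn g' := by
  obtain ⟨u, rfl⟩ := h
  obtain ⟨c, hc, hu⟩ := unit_eq u.isUnit
  rw [ordn_mul hg u.isUnit.ne_zero, hu, ordn_CC, add_zero]

theorem tdeg_associated {g g' : ℂ[X][X]} (hg : g ≠ 0) (h : Associated g g') :
    tdeg g = tdeg g' := by
  obtain ⟨u, rfl⟩ := h
  obtain ⟨c, hc, hu⟩ := unit_eq u.isUnit
  rw [tdeg_mul hg u.isUnit.ne_zero, hu, tdeg_CC, add_zero]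

theorem cf0_associated {g g' : ℂ[X][X]} (h : Associated g g') (hg : cf g (0, 0) = 0) :
    cf g' (0, 0) = 0 := by
  obtain ⟨u, rfl⟩ := h
  rw [cf0_mul, hg, zero_mul]

/-- No prime divides both variables. -/
theorem not_dvd_both {g : ℂ[X][X]} (hg : Irreducible g) (h1 : g ∣ C X) (h2 : g ∣ X) : False := by
  have h3 : Irreducible (C X : ℂ[X][X]) := H62.prime_CX.irreducible
  have h4 : Irreducible (X : ℂ[X][X]) := irreducible_X
  have h5 : Associated (C X : ℂ[X][X]) X :=
    (hg.associated_of_dvd h3 h1).symm.trans (hg.associated_of_dvd h4 h2)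
  have h6 := h5.dvd
  rw [C_dvd_iff_dvd_coeff] at h6
  have h7 := h6 1
  rw [coeff_X_one] at h7
  exact not_isUnit_X (isUnit_of_dvd_one h7)

theorem ev_int (P : Coord L) {v : DVal L} (h : ∀ z ∈ P.loc, v.Int z) (f : ℂ[X][X]) :
    v.Int (ev P.x P.y f) := h _ (P.ev_mem_loc f)

/-- Elements outside the maximal ideal have value zero. -/
theorem val_unit (P : Coord L) {v : DVal L} (h : ∀ z ∈ P.loc, v.Int z) {f : ℂ[X][X]}
    (hf : cf f (0, 0) ≠ 0) : v.v (ev P.x P.y f) = 0 := by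
  have hf0 := P.ne (ne_of_cf0 hf)
  have h1 := (ev_int P h f).resolve_left hf0
  have h2 := (h _ (inv_mem_loc P hf)).resolve_left (inv_ne_zero hf0)
  rw [v.map_inv hf0] at h2
  omega

theorem adic_int_loc {P : Coord L} {g : ℂ[X][X]} {v : DVal L} (h : IsAdic P g v)
    (h0 : cf g (0, 0) = 0) : ∀ z ∈ P.loc, v.Int z := by
  rintro z ⟨a, b, hb, rfl⟩
  by_cases ha : a = 0
  · left
    rw [ha, map_zero, zero_div]
  · right
    have hb0 := ne_of_cf0 hb
    rw [v.map_div (P.ne ha) (P.ne hb0)]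
    have h1 := IsAdic.nonneg h ha
    have h2 : v.v (ev P.x P.y b) = 0 := by
      apply IsAdic.zero_of h
      rintro ⟨c, rfl⟩
      rw [cf0_mul, h0, zero_mul] at hb
      exact hb rfl
    omega

theorem adic_of_centre (P : Coord L) {v : DVal L} {p : ℂ[X][X]} (hp : Prime p)
    (hi : ∀ f, v.Int (ev P.x P.y f)) (hpp : v.Pos (ev P.x P.y p))
    (h : ∀ g, v.Pos (ev P.x P.y g) → p ∣ g) : IsAdic P p v := by
  have h1 : ∀ f, ¬ p ∣ f → v.v (ev P.x P.y f) = 0 := by
    intro f hf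
    have hf0 : f ≠ 0 := fun h => hf (h ▸ dvd_zero p)
    have h2 := (hi f).resolve_left (P.ne hf0)
    by_contra h3
    exact hf (h f (Or.inr (by omega)))
  set e := v.v (ev P.x P.y p) with he
  have hgen : ∀ f, f ≠ 0 → v.v (ev P.x P.y f) = multiplicity p f * e := by
    intro f hf
    obtain ⟨c, hc, hc2⟩ := (H62.fin_mult hp hf).exists_eq_pow_mul_and_not_dvd
    have hc0 : c ≠ 0 := fun h => hc2 (h ▸ dvd_zero p)
    conv_lhs => rw [hc]
    rw [map_mul, map_pow, v.map_mul _ _ (pow_ne_zero _ (P.ne hp.ne_zero)) (P.ne hc0),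
      v.map_pow (P.ne hp.ne_zero), h1 c hc2, add_zero]
  have he1 : e = 1 := by
    obtain ⟨π, hπ, h2⟩ := v.exists_unif
    obtain ⟨⟨f, k⟩, hf, hk, h3⟩ := H62.rep P hπ
    rw [h3, v.map_div (P.ne hf) (P.ne hk), hgen f hf, hgen k hk, ← sub_mul] at h2
    have hpos : 0 < e := hpp.resolve_left (P.ne hp.ne_zero)
    rcases Int.isUnit_iff.1 (IsUnit.of_mul_eq_one_right _ h2) with h4 | h4
    · exact h4
    · omega
  refine ⟨hp.irreducible, fun n f hf => ?_⟩
  have hf0 : f ≠ 0 := fun h => hf (h ▸ dvd_zero p)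
  rw [map_mul, map_pow, v.map_mul _ _ (pow_ne_zero _ (P.ne hp.ne_zero)) (P.ne hf0),
    v.map_pow (P.ne hp.ne_zero), h1 f hf, ← he, he1]
  ring

/-- The monomials of positive degree have positive value. -/
theorem pos_of_xy (P : Coord L) {v : DVal L} (hx : v.Pos P.x) (hy : v.Pos P.y) {f : ℂ[X][X]}
    (hf : cf f (0, 0) = 0) : v.Pos (ev P.x P.y f) := by
  rw [ev_eq_sum]
  have key : ∀ s : Finset (ℕ × ℕ), s ⊆ bs f → v.Pos (∑ e ∈ s,
      algebraMap ℂ L (cf f e) * P.x ^ e.1 * P.y ^ e.2) := by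
    intro s
    induction s using Finset.induction_on with
    | empty => intro _; left; rw [Finset.sum_empty]
    | insert a s ha ih =>
      intro hs
      rw [Finset.sum_insert ha]
      refine v.pos_add ?_ (ih fun e he => hs (Finset.mem_insert_of_mem he))
      have h1 : cf f a ≠ 0 := mem_bs.1 (hs (Finset.mem_insert_self a s))
      rcases Nat.eq_zero_or_pos a.1 with h2 | h2
      · rcases Nat.eq_zero_or_pos a.2 with h3 | h3
        · exfalso
          apply h1
          have : a = (0, 0) := Prod.ext h2 h3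
          rw [this, hf]
        · have h4 : v.Pos (P.y ^ a.2) := by
            obtain ⟨m, hm⟩ := Nat.exists_eq_succ_of_ne_zero (Nat.pos_iff_ne_zero.1 h3)
            rw [hm, pow_succ, mul_comm]
            exact v.pos_mul_int hy (v.int_pow (DVal.Pos.int hy) m)
          rw [mul_comm]
          exact v.pos_mul_int h4 (v.int_mul (v.int_const _) (v.int_pow (DVal.Pos.int hx) _))
      · have h4 : v.Pos (P.x ^ a.1) := by
          obtain ⟨m, hm⟩ := Nat.exists_eq_succ_of_ne_zero (Nat.pos_iff_ne_zero.1 h2)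
          rw [hm, pow_succ, mul_comm]
          exact v.pos_mul_int hx (v.int_pow (DVal.Pos.int hx) m)
        rw [mul_assoc, mul_left_comm]
        exact v.pos_mul_int h4 (v.int_mul (v.int_const _) (v.int_pow (DVal.Pos.int hy) _))
  exact key _ (Finset.Subset.refl _)

/-- A6. -/
theorem through_iff (P : Coord L) (v : DVal L) :
    Through P.loc v ↔ ∃ g, IsAdic P g v ∧ cf g (0, 0) = 0 := by
  constructor
  · rintro ⟨hi, z, hz, hz', hz0, hv⟩
    obtain ⟨f, g, hg, hf, h1⟩ := nonunit_rep hz hz'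
    have hg0 := ne_of_cf0 hg
    have hf0 : f ≠ 0 := by
      rintro rfl
      rw [map_zero, zero_div] at h1
      exact hz0 h1
    have h2 : v.v (ev P.x P.y f) = 0 := by
      rw [h1, v.map_div (P.ne hf0) (P.ne hg0), val_unit P hi hg] at hv
      omega
    have hint := ev_int P hi
    have hix : v.Int P.x := by
      have := hint (C X)
      rwa [ev_CX] at this
    have hiy : v.Int P.y := by
      have := hint X
      rwa [ev_X] at this
    have hnc : ¬ ((∃ c : ℂ, v.Pos (P.x - algebraMap ℂ L c)) ∧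
        ∃ c : ℂ, v.Pos (P.y - algebraMap ℂ L c)) := by
      rintro ⟨⟨c, hc⟩, ⟨d, hd⟩⟩
      have hc0 : c = 0 := by
        by_contra hne
        have h3 : cf (C (X - C c) : ℂ[X][X]) (0, 0) ≠ 0 := by
          simp [cf, hne]
        have h4 := val_unit P hi h3
        have h5 : ev P.x P.y (C (X - C c)) = P.x - algebraMap ℂ L c := by
          rw [ev_C, map_sub, aeval_X, aeval_C]
        rw [h5] at h4
        rcases hc with h6 | h6
        · rw [← h5] at h6
          exact P.ne (ne_of_cf0 h3) h6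
        · omega
      have hd0 : d = 0 := by
        by_contra hne
        have h3 : cf (X - C (C d) : ℂ[X][X]) (0, 0) ≠ 0 := by
          simp [cf, hne]
        have h4 := val_unit P hi h3
        have h5 : ev P.x P.y (X - C (C d)) = P.y - algebraMap ℂ L d := by
          rw [map_sub, ev_X, ev_CC]
        rw [h5] at h4
        rcases hd with h6 | h6
        · rw [← h5] at h6
          exact P.ne (ne_of_cf0 h3) h6
        · omega
      rw [hc0, map_zero, sub_zero] at hc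
      rw [hd0, map_zero, sub_zero] at hd
      have h3 := (pos_of_xy P hc hd hf).resolve_left (P.ne hf0)
      omega
    obtain ⟨π, hπ, h3⟩ := v.exists_unif
    obtain ⟨⟨a, b⟩, ha, hb, h4⟩ := H62.rep P hπ
    dsimp only at ha hb h4
    have h5 : v.Pos (ev P.x P.y a) := by
      right
      rw [h4, v.map_div (P.ne ha) (P.ne hb)] at h3
      have := (hint b).resolve_left (P.ne hb)
      omega
    obtain ⟨p, hp, hpp, hall⟩ := exists_prime_centre v P hix hiy hnc ha h5
    refine ⟨p, adic_of_centre P hp hint hpp hall, ?_⟩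
    by_contra hne
    have h6 := val_unit P hi hne
    have h7 := hpp.resolve_left (P.ne hp.ne_zero)
    omega
  · rintro ⟨g, hg, h0⟩
    refine ⟨adic_int_loc hg h0, ?_⟩
    by_cases h1 : g ∣ C X
    · have h2 : ¬ g ∣ X := fun h => not_dvd_both hg.1 h1 h
      refine ⟨ev P.x P.y X, P.ev_mem_loc X, inv_notMem_loc P X_ne' cf0_X, P.ne X_ne',
        IsAdic.zero_of hg h2⟩
    · refine ⟨ev P.x P.y (C X), P.ev_mem_loc _, inv_notMem_loc P CX_ne cf0_CX, P.ne CX_ne,
        IsAdic.zero_of hg h1⟩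

end

end H81

end LCY
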