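import Pool.Agent.Helper81.LCY.SMd
import Pool.Agent.Helper93.LCY.BR7Stmts
import Pool.Agent.Helper27.LCY.BR5

/-!
MP_f7e214_ag, row BR7SM: log canonicity at the regular points.
-/

open MvPolynomial

namespace LCY

namespace H81

noncomputable section

open IsLocalRing

/-- Divisorial valuations with the same valuation ring have the same values. -/
theorem same_of_int {L : Type} [Field L] [Algebra ℂ L] {v w : DVal L}
    (h : ∀ a, v.Int a ↔ w.Int a) : v.Same w := by
  have hz : ∀ a, a ≠ 0 → v.v a = 0 → w.v a = 0 := by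
    intro a ha hva
    have h1 := ((h a).1 (Or.inr (by omega))).resolve_left ha
    have h2 := ((h a⁻¹).1 (Or.inr (by rw [v.map_inv ha]; omega))).resolve_left (inv_ne_zero ha)
    rw [w.map_inv ha] at h2
    omega
  obtain ⟨π, hπ0, hπ⟩ := v.exists_unif
  have hgen : ∀ a, a ≠ 0 → w.v a = v.v a * w.v π := by
    intro a ha
    have h1 : v.v (a * π ^ (- v.v a)) = 0 := by
      rw [v.map_mul _ _ ha (zpow_ne_zero _ hπ0), v.map_zpow hπ0, hπ]
      ring
    have h2 := hz _ (mul_ne_zero ha (zpow_ne_zero _ hπ0)) h1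
    rw [w.map_mul _ _ ha (zpow_ne_zero _ hπ0), w.map_zpow hπ0] at h2
    linarith
  obtain ⟨σ, hσ0, hσ⟩ := w.exists_unif
  have h3 := hgen σ hσ0
  rw [hσ] at h3
  have h4 : 0 ≤ w.v π := ((h π).1 (Or.inr (by omega))).resolve_left hπ0
  have h5 : w.v π = 1 := by
    rcases Int.isUnit_iff.1 (IsUnit.of_mul_eq_one_right _ h3.symm) with h6 | h6
    · exact h6
    · omega
  intro a ha
  rw [hgen a ha, h5, mul_one]

variable {N : ℕ} {Y : Var N} {p : Fin (N + 1) → ℂ}

theorem isPt_of_curve {C : Var N} (hYC : Y.IsCurveOn C) (hC : C.IsPt p) : Y.IsPt p :=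
  ⟨hC.1, fun f hf => hC.2 f (hYC.1 hf)⟩

/-- A function without zeros and poles along the curves through `p` has value zero at the
valuations with centre `p`. -/
theorem val_zero_of_curves (hY : Y.HasDim 2) (hN : Y.Normal) (hp : Y.IsPt p) {v : DVal Y.L}
    (hc : CentreAt Y v p) {z : Y.L} (hz : z ≠ 0)
    (h : ∀ (E : Var N) (w : DVal Y.L), Y.IsCurveOn E → E.IsPt p →
      (∀ a, w.Int a ↔ a ∈ Y.locRing E.I) → w.v z = 0) : v.v z = 0 := by
  have h1 : z ∈ Y.locRing (ptIdeal p) := by
    refine br5 N Y hY hN p hp z fun E hE hEp => ?_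
    obtain ⟨w, hw⟩ := br3 N Y hY hN E hE
    rw [← hw]
    exact Or.inr (h E w hE hEp hw).ge
  have h2 : z⁻¹ ∈ Y.locRing (ptIdeal p) := by
    refine br5 N Y hY hN p hp z⁻¹ fun E hE hEp => ?_
    obtain ⟨w, hw⟩ := br3 N Y hY hN E hE
    rw [← hw]
    right
    rw [w.map_inv hz, h E w hE hEp hw]
    norm_num
  have h3 := (hc.1 z h1).resolve_left hz
  have h4 := (hc.1 _ h2).resolve_left (inv_ne_zero hz)
  rw [v.map_inv hz] at h4
  omega

/-- The value of the bracket of the generators along a curve through the point. -/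
theorem br_gen_val {D : Set (Var N)} {ω : Y.Forms} {B : Bracket Y.L} (hyp : BR7Hyp Y D ω B)
    (hp : Y.IsPt p) [IsLocalRing (Y.locRing (ptIdeal p))]
    {x y : Y.locRing (ptIdeal p)}
    (hm : maximalIdeal (Y.locRing (ptIdeal p)) = Ideal.span {x, y}) {E : Var N}
    (hE : Y.IsCurveOn E) (hEp : E.IsPt p) {w : DVal Y.L}
    (hw : ∀ a, w.Int a ↔ a ∈ Y.locRing E.I) :
    (E ∉ D → w.v (B.br (x : Y.L) (y : Y.L)) = 0) ∧
      (E ∈ D → w.v (B.br (x : Y.L) (y : Y.L)) = 1) := by
  have hY := hyp.cy.surface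
  have hN := hyp.cy.normal
  have hess := essFinite hp
  have hne : B.br (x : Y.L) (y : Y.L) ≠ 0 :=
    br_gen_ne _ B (pt_res hp) (pt_frac hp) hm
  have key : ∀ k : ℤ, B.Wt w k → w.v (B.br (x : Y.L) (y : Y.L)) = - k := by
    intro k hk
    have hall := H73.wt_all (br1 _ Y hY).1 (H73.fg_of_hasDim Y hY) B w hk
    apply le_antisymm
    · obtain ⟨t, π, ht, hπ0, hπ, hne', hval⟩ := hk
      obtain ⟨c, hc, hbr⟩ := br_int _ B w (pt_res hp) (loc_le_curve hEp hw)
        (fun z hz => curve_frac hE hEp hw hz) hm t π (Or.inr (by rw [w.resTr_val ht]))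
        (Or.inr (by omega))
      have hc0 : c ≠ 0 := by
        rintro rfl
        rw [zero_mul] at hbr
        exact hne' hbr
      rw [hbr, w.map_mul _ _ hc0 hne] at hval
      have := hc.resolve_left hc0
      omega
    · exact (hall.2.1 _ _ (loc_le_curve hEp hw _ x.2) (loc_le_curve hEp hw _ y.2)).resolve_left
        hne
  have h6 := br6 N Y hY hN ω B hyp.br E hE w hw
  constructor
  · intro hD
    rw [key 0 (h6.1 (hyp.off E hE hD))]
    norm_num
  · intro hD
    rw [key (-1) (h6.2 (hyp.on E hD))]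
    norm_num

/-- The data of a component of `D` through the regular point. -/
theorem component {D : Set (Var N)} {ω : Y.Forms} {B : Bracket Y.L} (hyp : BR7Hyp Y D ω B)
    [IsRegularLocalRing (Y.locRing (ptIdeal p))] {C : Var N} (hCD : C ∈ D) (hC : C.IsPt p)
    {v : DVal Y.L} (hv : ∀ a, v.Int a ↔ a ∈ Y.locRing C.I) :
    ∃ f u : Y.locRing (ptIdeal p),
      maximalIdeal (Y.locRing (ptIdeal p)) = Ideal.span {f, u} ∧ (f : Y.L) ≠ 0 ∧
      (∀ z : Y.locRing (ptIdeal p), v.Pos (z : Y.L) → z ∈ Ideal.span {f}) ∧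
      v.v (f : Y.L) = 1 ∧
      ∀ (E : Var N) (w : DVal Y.L), Y.IsCurveOn E → E.IsPt p → E ≠ C →
        (∀ a, w.Int a ↔ a ∈ Y.locRing E.I) → w.v (f : Y.L) = 0 := by
  have hYC := hyp.cy.snc.curve C hCD
  have hp := isPt_of_curve hYC hC
  have hY := hyp.cy.surface
  obtain ⟨x, y, hm⟩ := two_gens (dim_loc_le Y hY hp)
  have hnp := Y.not_principal p hY hp
  obtain ⟨u, hu⟩ := exists_u hYC hC (hyp.cy.snc.smooth C hCD p hC) hv
  obtain ⟨f, hf, hfu⟩ := prime_principal (pt_res hp) hm hnp (pI_ne hYC hC hv) hu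
  obtain ⟨hf0, hvf⟩ := val_gen hYC hC hv hf
  refine ⟨f, u, hfu, hf0, ?_, hvf, ?_⟩
  · intro z hz
    rw [← hf]
    exact hz
  · intro E w hE hEp hne hw
    have h1 := (loc_le_curve hEp hw _ f.2).resolve_left hf0
    by_contra h2
    apply hne
    symm
    refine curve_eq hYC hE hC hEp hv hw fun z hz hpos => ?_
    have h3 : (⟨z, hz⟩ : Y.locRing (ptIdeal p)) ∈ Ideal.span {f} := by
      rw [← hf]; exact hpos
    rw [Ideal.mem_span_singleton'] at h3
    obtain ⟨c, hc⟩ := h3
    have hc' : (c : Y.L) * (f : Y.L) = z := congrArg Subtype.val hc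
    rw [← hc', mul_comm]
    exact w.pos_mul_int (Or.inr (by omega)) (loc_le_curve hEp hw _ c.2)

/-- Transversality: the ideals of two components through the point generate the maximal
ideal. -/
theorem transversal {C C' : Var N} (hYC : Y.IsCurveOn C) (hYC' : Y.IsCurveOn C')
    (hC : C.IsPt p) (hC' : C'.IsPt p) [IsLocalRing (Y.locRing (ptIdeal p))]
    (ht : ∀ f ∈ ptIdeal p, ∃ g, g ∉ ptIdeal p ∧ g * f ∈ C.I ⊔ C'.I)
    {v v' : DVal Y.L} (hv : ∀ a, v.Int a ↔ a ∈ Y.locRing C.I)
    (hv' : ∀ a, v'.Int a ↔ a ∈ Y.locRing C'.I) {f f' : Y.locRing (ptIdeal p)}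
    (hf : ∀ z : Y.locRing (ptIdeal p), v.Pos (z : Y.L) → z ∈ Ideal.span {f})
    (hf' : ∀ z : Y.locRing (ptIdeal p), v'.Pos (z : Y.L) → z ∈ Ideal.span {f'})
    (hfm : f ∈ maximalIdeal (Y.locRing (ptIdeal p)))
    (hfm' : f' ∈ maximalIdeal (Y.locRing (ptIdeal p))) :
    maximalIdeal (Y.locRing (ptIdeal p)) = Ideal.span {f, f'} := by
  have hp := isPt_of_curve hYC hC
  apply le_antisymm
  · intro z hz
    obtain ⟨n, F, G, hF, hG, hGJ, hGI, hzz⟩ := z.2
    have hFp : F ∈ ptIdeal p := (mem_max_iff hp z hF hG hGJ hGI hzz).1 hz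
    obtain ⟨g, hg, hgF⟩ := ht F hFp
    have h1 : ∃ m, homogeneousComponent m g ∉ ptIdeal p := by
      by_contra hc
      push Not at hc
      apply hg
      rw [← MvPolynomial.sum_homogeneousComponent g]
      exact Ideal.sum_mem _ fun m _ => hc m
    obtain ⟨m, hm⟩ := h1
    set gm := homogeneousComponent m g with hgm
    have hgmh : gm.IsHomogeneous m := homogeneousComponent_isHomogeneous m g
    have h2 : homogeneousComponent (m + n) (g * F) = gm * F := by
      conv_lhs => rw [← MvPolynomial.sum_homogeneousComponent g, Finset.sum_mul, map_sum]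
      rw [Finset.sum_eq_single m]
      · rw [homogeneousComponent_of_mem (n := m + n)
          ((homogeneousComponent_isHomogeneous m g).mul hF), if_pos rfl]
      · intro j _ hj
        rw [homogeneousComponent_of_mem (n := j + n)
          ((homogeneousComponent_isHomogeneous j g).mul hF), if_neg (by omega)]
      · intro hnot
        have h3 : homogeneousComponent m g = 0 := by
          apply homogeneousComponent_eq_zero
          by_contra h4
          exact hnot (Finset.mem_range.2 (by omega))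
        rw [h3, zero_mul, map_zero]
    obtain ⟨A, hA, A', hA', hsum⟩ := Submodule.mem_sup.1 hgF
    have h3 : homogeneousComponent (m + n) A + homogeneousComponent (m + n) A' = gm * F := by
      rw [← map_add, hsum, h2]
    have hAm := C.homogeneous A hA (m + n)
    have hAm' := C'.homogeneous A' hA' (m + n)
    set a := homogeneousComponent (m + n) A with ha
    set a' := homogeneousComponent (m + n) A' with ha'
    have hah : a.IsHomogeneous (m + n) := homogeneousComponent_isHomogeneous _ _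
    have hah' : a'.IsHomogeneous (m + n) := homogeneousComponent_isHomogeneous _ _
    have hGG : (gm * G).IsHomogeneous (m + n) := hgmh.mul hG
    have hGGp : gm * G ∉ ptIdeal p := fun h =>
      ((inferInstance : (ptIdeal p).IsPrime).mem_or_mem h).elim hm hGJ
    have hGGY : gm * G ∉ Y.I := fun h => hGGp (Y.le_ptIdeal p hp h)
    have hGGC : gm * G ∉ C.I := fun h => hGGp (C.le_ptIdeal p hC h)
    have hGGC' : gm * G ∉ C'.I := fun h => hGGp (C'.le_ptIdeal p hC' h)
    set z1 : Y.locRing (ptIdeal p) := ⟨⟨Y.cls a / Y.cls (gm * G),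
      ⟨m + n, a, gm * G, hah, hGG, hGGY, hGGY, rfl⟩⟩,
      ⟨m + n, a, gm * G, hah, hGG, hGGp, hGGY, rfl⟩⟩ with hz1
    set z2 : Y.locRing (ptIdeal p) := ⟨⟨Y.cls a' / Y.cls (gm * G),
      ⟨m + n, a', gm * G, hah', hGG, hGGY, hGGY, rfl⟩⟩,
      ⟨m + n, a', gm * G, hah', hGG, hGGp, hGGY, rfl⟩⟩ with hz2
    have h4 : z = z1 + z2 := by
      apply Subtype.ext
      apply Subtype.ext
      change ((z : Y.L) : Y.K) = Y.cls a / Y.cls (gm * G) + Y.cls a' / Y.cls (gm * G)
      have hgmY : gm ∉ Y.I := fun h => hm (Y.le_ptIdeal p hp h)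
      rw [← add_div, ← Var.cls_add, h3, Var.cls_mul, Var.cls_mul, hzz,
        mul_div_mul_left _ _ (Y.cls_ne hgmY)]
    have h5 : z1 ∈ Ideal.span {f} := hf z1 (pos_of_not_unit hYC.1 hv hah hGG hGGC hAm rfl)
    have h6 : z2 ∈ Ideal.span {f'} := hf' z2 (pos_of_not_unit hYC'.1 hv' hah' hGG hGGC' hAm' rfl)
    rw [h4, Ideal.span_insert]
    exact Submodule.add_mem_sup h5 h6
  · rw [Ideal.span_le]
    rintro z (rfl | hz)
    · exact hfm
    · rw [Set.mem_singleton_iff] at hz
      rw [hz]; exact hfm'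

/-- BR7SM. -/
theorem st_SM : ST_SM := by
  intro N Y D ω B hyp v k hk p hp hc hreg
  have hreg' : IsRegularLocalRing (Y.locRing (ptIdeal p)) := hreg
  have hY := hyp.cy.surface
  have hN := hyp.cy.normal
  have hess := essFinite hp
  have hnp := Y.not_principal p hY hp
  have hall := H73.wt_all (br1 _ Y hY).1 (H73.fg_of_hasDim Y hY) B v hk
  have hpos : ∀ z : Y.locRing (ptIdeal p), z ∈ maximalIdeal (Y.locRing (ptIdeal p)) →
      (z : Y.L) ≠ 0 → 0 < v.v (z : Y.L) := by
    intro z hz hz0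
    exact (hc.2 z hz).resolve_left hz0
  have hgen : ∀ x y : Y.locRing (ptIdeal p),
      maximalIdeal (Y.locRing (ptIdeal p)) = Ideal.span {x, y} →
      (x : Y.L) ≠ 0 ∧ (y : Y.L) ≠ 0 ∧ 0 < v.v (x : Y.L) ∧ 0 < v.v (y : Y.L) ∧
      B.br (x : Y.L) (y : Y.L) ≠ 0 ∧
      v.v (x : Y.L) + v.v (y : Y.L) - 1 - k ≤ v.v (B.br (x : Y.L) (y : Y.L)) := by
    intro x y hm
    have hxm : x ∈ maximalIdeal (Y.locRing (ptIdeal p)) := by
      rw [hm]; exact Ideal.subset_span (by simp)
    have hym : y ∈ maximalIdeal (Y.locRing (ptIdeal p)) := by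
      rw [hm]; exact Ideal.subset_span (by simp)
    have hx0 : (x : Y.L) ≠ 0 := by
      intro h0
      apply hnp
      refine ⟨y, ?_⟩
      have hx : x = 0 := Subtype.ext h0
      rw [hm, hx, Ideal.submodule_span_eq, Ideal.span_insert]
      simp
    have hy0 : (y : Y.L) ≠ 0 := by
      intro h0
      apply hnp
      refine ⟨x, ?_⟩
      have hy : y = 0 := Subtype.ext h0
      rw [hm, hy, Ideal.submodule_span_eq, Ideal.span_insert]
      simp
    have hne : B.br (x : Y.L) (y : Y.L) ≠ 0 := br_gen_ne _ B (pt_res hp) (pt_frac hp) hm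
    exact ⟨hx0, hy0, hpos x hxm hx0, hpos y hym hy0, hne, hall.2.2.1 _ _ hx0 hy0 hne⟩
  by_cases h0 : ∃ C ∈ D, C.IsPt p
  · obtain ⟨C, hCD, hC⟩ := h0
    refine ⟨?_, fun h => absurd hC (h C hCD)⟩
    have hYC := hyp.cy.snc.curve C hCD
    obtain ⟨vC, hvC⟩ := br3 N Y hY hN C hYC
    obtain ⟨f, u, hfu, hf0, hfgen, hvf, hfE⟩ := component hyp hCD hC hvC
    by_cases h1 : ∃ C' ∈ D, C' ≠ C ∧ C'.IsPt p
    · obtain ⟨C', hCD', hne, hC'⟩ := h1
      have hYC' := hyp.cy.snc.curve C' hCD'
      obtain ⟨vC', hvC'⟩ := br3 N Y hY hN C' hYC'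
      obtain ⟨f', u', hfu', hf0', hfgen', hvf', hfE'⟩ := component hyp hCD' hC' hvC'
      have hm : maximalIdeal (Y.locRing (ptIdeal p)) = Ideal.span {f, f'} := by
        refine transversal hYC hYC' hC hC' ?_ hvC hvC' hfgen hfgen' ?_ ?_
        · exact hyp.cy.snc.transversal C hCD C' hCD' hne.symm p hC hC'
        · rw [hfu]; exact Ideal.subset_span (by simp)
        · rw [hfu']; exact Ideal.subset_span (by simp)
      obtain ⟨g1, g2, g3, g4, g5, g6⟩ := hgen f f' hm
      have hff : (f : Y.L) * (f' : Y.L) ≠ 0 := mul_ne_zero g1 g2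
      have h2 : v.v (B.br (f : Y.L) (f' : Y.L) / ((f : Y.L) * (f' : Y.L))) = 0 := by
        refine val_zero_of_curves hY hN hp hc (div_ne_zero g5 hff) ?_
        intro E w hE hEp hw
        rw [w.map_div g5 hff, w.map_mul _ _ g1 g2]
        have hval := br_gen_val hyp hp hm hE hEp hw
        by_cases hEC : E = C
        · subst hEC
          have e1 : w.v (f : Y.L) = 1 := by
            rw [same_of_int (fun a => by rw [hw, hvC] : ∀ a, w.Int a ↔ vC.Int a) _ g1, hvf]
          have e2 : w.v (f' : Y.L) = 0 := hfE' E w hE hEp hne.symm hw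
          rw [hval.2 hCD, e1, e2]
          norm_num
        · have e1 : w.v (f : Y.L) = 0 := hfE E w hE hEp hEC hw
          by_cases hEC' : E = C'
          · subst hEC'
            have e2 : w.v (f' : Y.L) = 1 := by
              rw [same_of_int (fun a => by rw [hw, hvC'] : ∀ a, w.Int a ↔ vC'.Int a) _ g2, hvf']
            rw [hval.2 hCD', e1, e2]
            norm_num
          · have e2 : w.v (f' : Y.L) = 0 := hfE' E w hE hEp hEC' hw
            have hED : E ∉ D := by
              intro hED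
              exact hyp.cy.snc.noTriple C hCD C' hCD' E hED hne.symm (Ne.symm hEC)
                (Ne.symm hEC') p ⟨hC, hC', hEp⟩
            rw [hval.1 hED, e1, e2]
            norm_num
      rw [v.map_div g5 hff, v.map_mul _ _ g1 g2] at h2
      omega
    · push Not at h1
      obtain ⟨g1, g2, g3, g4, g5, g6⟩ := hgen f u hfu
      have h2 : v.v (B.br (f : Y.L) (u : Y.L) / (f : Y.L)) = 0 := by
        refine val_zero_of_curves hY hN hp hc (div_ne_zero g5 g1) ?_
        intro E w hE hEp hw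
        rw [w.map_div g5 g1]
        have hval := br_gen_val hyp hp hfu hE hEp hw
        by_cases hEC : E = C
        · subst hEC
          have e1 : w.v (f : Y.L) = 1 := by
            rw [same_of_int (fun a => by rw [hw, hvC] : ∀ a, w.Int a ↔ vC.Int a) _ g1, hvf]
          rw [hval.2 hCD, e1]
          norm_num
        · have e1 : w.v (f : Y.L) = 0 := hfE E w hE hEp hEC hw
          have hED : E ∉ D := fun hED => h1 E hED hEC hEp
          rw [hval.1 hED, e1]
          norm_num
      rw [v.map_div g5 g1] at h2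
      omega
  · push Not at h0
    obtain ⟨x, y, hm⟩ := two_gens (dim_loc_le Y hY hp)
    obtain ⟨g1, g2, g3, g4, g5, g6⟩ := hgen x y hm
    have h2 : v.v (B.br (x : Y.L) (y : Y.L)) = 0 := by
      refine val_zero_of_curves hY hN hp hc g5 ?_
      intro E w hE hEp hw
      exact (br_gen_val hyp hp hm hE hEp hw).1 fun hED => h0 E hED hEp
    rw [h2] at g6
    exact ⟨by omega, fun _ => by omega⟩

end

end H81

end LCY
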