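import Pool.Agent.Helper11.LCY.State

/-!
MP_f7e214_ag, row A12: the order at the origin and the total degree of a polynomial in
two variables.
-/

open Polynomial

namespace LCY

namespace H81

noncomputable section

variable {L : Type} [Field L] [Algebra ℂ L]

/-- Substitution `X ↦ T`, `Y ↦ S T` (`T` is the outer variable). -/
def sT : ℂ[X][X] →+* ℂ[X][X] :=
  eval₂RingHom (aeval (X : ℂ[X][X]) : ℂ[X] →ₐ[ℂ] ℂ[X][X]).toRingHom (C X * X)

theorem sT_monomial (i j : ℕ) (c : ℂ) :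
    sT (monomial j (monomial i c)) = monomial (i + j) (monomial j c) := by
  unfold sT
  rw [coe_eval₂RingHom, eval₂_monomial]
  have h1 : (aeval (X : ℂ[X][X]) : ℂ[X] →ₐ[ℂ] ℂ[X][X]).toRingHom (monomial i c) =
      C (C c) * X ^ i := by
    show aeval (X : ℂ[X][X]) (monomial i c) = _
    rw [aeval_monomial]
    rfl
  rw [h1, ← C_mul_X_pow_eq_monomial, ← C_mul_X_pow_eq_monomial, C_mul, C_pow]
  ring

theorem sT_eq (f : ℂ[X][X]) :
    sT f = ∑ e ∈ bs f, monomial (e.1 + e.2) (monomial e.2 (cf f e)) := by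
  conv_lhs => rw [eq_sum_bs f]
  rw [map_sum]
  exact Finset.sum_congr rfl fun e _ => sT_monomial _ _ _

theorem cf_sT (f : ℂ[X][X]) (i j : ℕ) : cf (sT f) (j, i + j) = cf f (i, j) := by
  unfold cf
  rw [sT_eq, finsetSum_coeff, finsetSum_coeff]
  by_cases h : (i, j) ∈ bs f
  · rw [Finset.sum_eq_single (i, j)]
    · rw [coeff_monomial, if_pos rfl, coeff_monomial, if_pos rfl]; rfl
    · intro e _ he
      rw [coeff_monomial]
      split_ifs with h2
      · rw [coeff_monomial, if_neg]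
        intro h1
        have h1' : e.2 = j := h1
        exact he (Prod.ext (by dsimp only at h2 ⊢; omega) h1')
      · simp
    · intro h'; exact absurd h h'
  · rw [Finset.sum_eq_zero]
    · by_contra h'
      exact h (mem_bs.2 fun h0 => h' h0.symm)
    · intro e he
      rw [coeff_monomial]
      split_ifs with h2
      · rw [coeff_monomial, if_neg]
        intro h1
        have h1' : e.2 = j := h1
        have h3 : e = (i, j) := Prod.ext (by dsimp only at h2 ⊢; omega) h1'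
        exact h (h3 ▸ he)
      · simp

theorem cf_sT_ne {f : ℂ[X][X]} {j n : ℕ} (h : cf (sT f) (j, n) ≠ 0) :
    ∃ i, n = i + j ∧ cf f (i, j) ≠ 0 := by
  unfold cf at h
  rw [sT_eq, finsetSum_coeff, finsetSum_coeff] at h
  obtain ⟨e, he, hne⟩ := Finset.exists_ne_zero_of_sum_ne_zero h
  rw [coeff_monomial] at hne
  split_ifs at hne with h1
  · rw [coeff_monomial] at hne
    split_ifs at hne with h2
    · dsimp only at h1 h2
      refine ⟨e.1, by omega, ?_⟩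
      rw [← h2]
      exact mem_bs.1 he
    · exact absurd rfl hne
  · simp at hne

theorem sT_ne {f : ℂ[X][X]} (hf : f ≠ 0) : sT f ≠ 0 := by
  intro h
  obtain ⟨e, he⟩ := exists_cf_ne hf
  apply he
  rw [← cf_sT f e.1 e.2, h]
  simp [cf]

theorem ordn_le {f : ℂ[X][X]} {e : ℕ × ℕ} (h : cf f e ≠ 0) : ordn f ≤ e.1 + e.2 :=
  Nat.sInf_le ⟨e, h, rfl⟩

theorem ordn_spec {f : ℂ[X][X]} (hf : f ≠ 0) : ∃ e, cf f e ≠ 0 ∧ e.1 + e.2 = ordn f := by
  obtain ⟨e, he⟩ := exists_cf_ne hf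
  exact Nat.sInf_mem (s := {n | ∃ e : ℕ × ℕ, cf f e ≠ 0 ∧ e.1 + e.2 = n}) ⟨_, e, he, rfl⟩

theorem le_ordn {f : ℂ[X][X]} (hf : f ≠ 0) {n : ℕ} (h : ∀ e, cf f e ≠ 0 → n ≤ e.1 + e.2) :
    n ≤ ordn f := by
  obtain ⟨e, he, h1⟩ := ordn_spec hf
  rw [← h1]
  exact h e he

theorem le_tdeg {f : ℂ[X][X]} {e : ℕ × ℕ} (h : cf f e ≠ 0) : e.1 + e.2 ≤ tdeg f :=
  Finset.le_sup (f := fun e : ℕ × ℕ => e.1 + e.2) (mem_bs.2 h)

theorem tdeg_spec {f : ℂ[X][X]} (hf : f ≠ 0) : ∃ e, cf f e ≠ 0 ∧ e.1 + e.2 = tdeg f := by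
  obtain ⟨e, he⟩ := exists_cf_ne hf
  have h : (bs f).Nonempty := ⟨e, mem_bs.2 he⟩
  obtain ⟨e', he', h'⟩ := Finset.exists_mem_eq_sup (bs f) h fun e : ℕ × ℕ => e.1 + e.2
  exact ⟨e', mem_bs.1 he', h'.symm⟩

theorem tdeg_le {f : ℂ[X][X]} {n : ℕ} (h : ∀ e, cf f e ≠ 0 → e.1 + e.2 ≤ n) : tdeg f ≤ n :=
  Finset.sup_le fun e he => h e (mem_bs.1 he)

theorem ordn_eq {f : ℂ[X][X]} (hf : f ≠ 0) : ordn f = (sT f).natTrailingDegree := by
  apply le_antisymm
  · have h1 : (sT f).coeff (sT f).natTrailingDegree ≠ 0 := by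
      have := trailingCoeff_nonzero_iff_nonzero.2 (sT_ne hf)
      exact this
    have h2 : ∃ j, ((sT f).coeff (sT f).natTrailingDegree).coeff j ≠ 0 := by
      by_contra h
      push Not at h
      exact h1 (Polynomial.ext fun j => by rw [h j, coeff_zero])
    obtain ⟨j, hj⟩ := h2
    obtain ⟨i, h3, h4⟩ := cf_sT_ne (f := f) (j := j) (n := (sT f).natTrailingDegree) hj
    rw [h3]
    exact ordn_le h4
  · obtain ⟨e, he, h1⟩ := ordn_spec hf
    rw [← h1]
    apply natTrailingDegree_le_of_ne_zero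
    intro h
    apply he
    rw [← cf_sT f e.1 e.2]
    unfold cf
    dsimp only
    rw [h, coeff_zero]

theorem tdeg_eq {f : ℂ[X][X]} (hf : f ≠ 0) : tdeg f = (sT f).natDegree := by
  apply le_antisymm
  · obtain ⟨e, he, h1⟩ := tdeg_spec hf
    rw [← h1]
    apply le_natDegree_of_ne_zero
    intro h
    apply he
    rw [← cf_sT f e.1 e.2]
    unfold cf
    dsimp only
    rw [h, coeff_zero]
  · have h1 : (sT f).coeff (sT f).natDegree ≠ 0 := leadingCoeff_ne_zero.2 (sT_ne hf)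
    have h2 : ∃ j, ((sT f).coeff (sT f).natDegree).coeff j ≠ 0 := by
      by_contra h
      push Not at h
      exact h1 (Polynomial.ext fun j => by rw [h j, coeff_zero])
    obtain ⟨j, hj⟩ := h2
    obtain ⟨i, h3, h4⟩ := cf_sT_ne (f := f) (j := j) (n := (sT f).natDegree) hj
    rw [h3]
    exact le_tdeg h4

/-- A12. -/
theorem ordn_mul {f g : ℂ[X][X]} (hf : f ≠ 0) (hg : g ≠ 0) : ordn (f * g) = ordn f + ordn g := by
  rw [ordn_eq (mul_ne_zero hf hg), ordn_eq hf, ordn_eq hg, map_mul,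
    natTrailingDegree_mul (sT_ne hf) (sT_ne hg)]

/-- A12. -/
theorem tdeg_mul {f g : ℂ[X][X]} (hf : f ≠ 0) (hg : g ≠ 0) : tdeg (f * g) = tdeg f + tdeg g := by
  rw [tdeg_eq (mul_ne_zero hf hg), tdeg_eq hf, tdeg_eq hg, map_mul,
    natDegree_mul (sT_ne hf) (sT_ne hg)]

theorem cf_add (f g : ℂ[X][X]) (e : ℕ × ℕ) : cf (f + g) e = cf f e + cf g e := by
  simp [cf]

theorem cf_add_ne {f g : ℂ[X][X]} {e : ℕ × ℕ} (h : cf (f + g) e ≠ 0) :
    cf f e ≠ 0 ∨ cf g e ≠ 0 := by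
  by_contra h'
  push Not at h'
  rw [cf_add, h'.1, h'.2, add_zero] at h
  exact h rfl

theorem ordn_add {f g : ℂ[X][X]} (h : f + g ≠ 0) : min (ordn f) (ordn g) ≤ ordn (f + g) := by
  refine le_ordn h fun e he => ?_
  rcases cf_add_ne he with h1 | h1
  · exact (min_le_left _ _).trans (ordn_le h1)
  · exact (min_le_right _ _).trans (ordn_le h1)

theorem tdeg_add (f g : ℂ[X][X]) : tdeg (f + g) ≤ max (tdeg f) (tdeg g) := by
  refine tdeg_le fun e he => ?_
  rcases cf_add_ne he with h1 | h1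
  · exact (le_tdeg h1).trans (le_max_left _ _)
  · exact (le_tdeg h1).trans (le_max_right _ _)

theorem cf_CC (c : ℂ) {e : ℕ × ℕ} (h : cf (C (C c)) e ≠ 0) : e = (0, 0) := by
  unfold cf at h
  rw [coeff_C] at h
  split_ifs at h with h1
  · rw [coeff_C] at h
    split_ifs at h with h2
    · exact Prod.ext h2 h1
    · exact absurd rfl h
  · simp at h

theorem ordn_CC (c : ℂ) : ordn (C (C c)) = 0 := by
  by_cases hc : c = 0
  · rw [hc, C_0, C_0]
    unfold ordn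
    have : {n | ∃ e : ℕ × ℕ, cf 0 e ≠ 0 ∧ e.1 + e.2 = n} = ∅ := by
      ext n
      simp [cf]
    rw [this, Nat.sInf_empty]
  · obtain ⟨e, he, h⟩ := ordn_spec (f := C (C c)) (by rw [Ne, C_eq_zero, C_eq_zero]; exact hc)
    rw [← h, cf_CC c he]; rfl

theorem tdeg_CC (c : ℂ) : tdeg (C (C c)) = 0 :=
  Nat.le_zero.1 (tdeg_le fun e he => by rw [cf_CC c he]; rfl)

theorem cf_X {e : ℕ × ℕ} (h : cf X e ≠ 0) : e = (0, 1) := by
  unfold cf at h
  rw [coeff_X] at h
  split_ifs at h with h1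
  · rw [coeff_one] at h
    split_ifs at h with h2
    · exact Prod.ext h2 h1.symm
    · exact absurd rfl h
  · simp at h

theorem cf_CX {e : ℕ × ℕ} (h : cf (C X) e ≠ 0) : e = (1, 0) := by
  unfold cf at h
  rw [coeff_C] at h
  split_ifs at h with h1
  · rw [coeff_X] at h
    split_ifs at h with h2
    · exact Prod.ext h2.symm h1
    · exact absurd rfl h
  · simp at h

theorem X_ne' : (X : ℂ[X][X]) ≠ 0 := X_ne_zero

theorem CX_ne : (C X : ℂ[X][X]) ≠ 0 := by rw [Ne, C_eq_zero]; exact X_ne_zero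

theorem ordn_X : ordn X = 1 := by
  obtain ⟨e, he, h⟩ := ordn_spec X_ne'
  rw [← h, cf_X he]; rfl

theorem ordn_CX : ordn (C X) = 1 := by
  obtain ⟨e, he, h⟩ := ordn_spec CX_ne
  rw [← h, cf_CX he]; rfl

theorem tdeg_X : tdeg X = 1 := by
  obtain ⟨e, he, h⟩ := tdeg_spec X_ne'
  rw [← h, cf_X he]; rfl

theorem tdeg_CX : tdeg (C X) = 1 := by
  obtain ⟨e, he, h⟩ := tdeg_spec CX_ne
  rw [← h, cf_CX he]; rfl

/-- The homogenisation of a polynomial in one variable. -/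
def hmg (Q : ℂ[X]) : ℂ[X][X] :=
  ∑ i ∈ Finset.range (Q.natDegree + 1), monomial i (monomial (Q.natDegree - i) (Q.coeff i))

theorem ev_hmg (x y : L) (hx : x ≠ 0) (Q : ℂ[X]) :
    ev x y (hmg Q) = x ^ Q.natDegree * aeval (y / x) Q := by
  unfold hmg
  rw [map_sum, aeval_eq_sum_range, Finset.mul_sum]
  refine Finset.sum_congr rfl fun i hi => ?_
  have h1 : i ≤ Q.natDegree := Nat.lt_succ_iff.1 (Finset.mem_range.1 hi)
  rw [ev_monomial, Algebra.smul_def, div_pow]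
  have h2 : x ^ Q.natDegree = x ^ (Q.natDegree - i) * x ^ i := by
    rw [← pow_add, Nat.sub_add_cancel h1]
  rw [h2]
  have h3 : x ^ i ≠ 0 := pow_ne_zero _ hx
  field_simp

theorem cf_hmg {Q : ℂ[X]} {e : ℕ × ℕ} (h : cf (hmg Q) e ≠ 0) : e.1 + e.2 = Q.natDegree := by
  unfold cf hmg at h
  rw [finsetSum_coeff, finsetSum_coeff] at h
  obtain ⟨i, hi, hne⟩ := Finset.exists_ne_zero_of_sum_ne_zero h
  have h1 : i ≤ Q.natDegree := Nat.lt_succ_iff.1 (Finset.mem_range.1 hi)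
  rw [coeff_monomial] at hne
  split_ifs at hne with h2
  · rw [coeff_monomial] at hne
    split_ifs at hne with h3
    · omega
    · exact absurd rfl hne
  · simp at hne

theorem hmg_ne {Q : ℂ[X]} (hQ : Q ≠ 0) : hmg Q ≠ 0 := by
  intro h
  have h1 : ev (1 : ℂ) 0 (hmg Q) = 0 := by rw [h, map_zero]
  have h2 : cf (hmg Q) (0, Q.natDegree) = Q.leadingCoeff := by
    unfold cf hmg
    rw [finsetSum_coeff, finsetSum_coeff, Finset.sum_eq_single Q.natDegree]
    · simp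
    · intro i _ hi
      rw [coeff_monomial, if_neg (by dsimp only; exact hi), coeff_zero]
    · intro h3
      exact absurd (Finset.mem_range.2 (Nat.lt_succ_self _)) h3
  rw [h] at h2
  have h3 : cf (0 : ℂ[X][X]) (0, Q.natDegree) = 0 := by simp [cf]
  rw [h3] at h2
  exact hQ (leadingCoeff_eq_zero.1 h2.symm)

theorem ordn_hmg {Q : ℂ[X]} (hQ : Q ≠ 0) : ordn (hmg Q) = Q.natDegree := by
  obtain ⟨e, he, h⟩ := ordn_spec (hmg_ne hQ)
  rw [← h, cf_hmg he]

theorem tdeg_hmg {Q : ℂ[X]} (hQ : Q ≠ 0) : tdeg (hmg Q) = Q.natDegree := by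
  obtain ⟨e, he, h⟩ := tdeg_spec (hmg_ne hQ)
  rw [← h, cf_hmg he]

theorem ordn_pow {f : ℂ[X][X]} (hf : f ≠ 0) (n : ℕ) : ordn (f ^ n) = n * ordn f := by
  induction n with
  | zero =>
    have := ordn_CC 1
    rw [C_1, C_1] at this
    rw [pow_zero, this, zero_mul]
  | succ n ih => rw [pow_succ, ordn_mul (pow_ne_zero _ hf) hf, ih]; ring

theorem tdeg_pow {f : ℂ[X][X]} (hf : f ≠ 0) (n : ℕ) : tdeg (f ^ n) = n * tdeg f := by
  induction n with
  | zero =>
    have := tdeg_CC 1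
    rw [C_1, C_1] at this
    rw [pow_zero, this, zero_mul]
  | succ n ih => rw [pow_succ, tdeg_mul (pow_ne_zero _ hf) hf, ih]; ring

theorem aeval_div_hmg (P : Coord L) (Q : ℂ[X]) :
    aeval (P.y / P.x) Q = ev P.x P.y (hmg Q) / ev P.x P.y ((C X) ^ Q.natDegree) := by
  rw [ev_hmg _ _ P.x_ne, map_pow, ev_CX, mul_div_cancel_left₀]
  exact pow_ne_zero _ P.x_ne

theorem oe_ordn {f : ℂ[X][X]} (hf : f ≠ 0) : H62.OE (ordn f) f :=
  ⟨fun _ he => ordn_le he, ordn_spec hf⟩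

theorem oe_eq {f : ℂ[X][X]} {m : ℕ} (h : H62.OE m f) : ordn f = m :=
  (oe_ordn h.ne).unique h

/-- The order valuation at a polynomial. -/
theorem ord_ev (P : Coord L) {f : ℂ[X][X]} (hf : f ≠ 0) :
    P.ord.v (ev P.x P.y f) = ordn f := P.ord_ev (oe_ordn hf)

end

end H81

end LCY
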