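import Pool.Agent.Helper81.LCY.RowsA

/-!
MP_f7e214_ag: principal divisors on the plane have degree zero.
-/

open Polynomial

namespace LCY

namespace H81

noncomputable section

variable {L : Type} [Field L] [Algebra ℂ L]

/-- The curves of the plane, normalised. -/
def PC (S : Coord L) : Set (DVal L) := {v | v.v 0 = 0 ∧ PlaneCur S v}

theorem deg_inf {S : Coord L} {v : DVal L} (h : IsInf S v) : deg S v = 1 := if_pos h

theorem inf_same {S : Coord L} {v w : DVal L} (hv : IsInf S v) (hw : IsInf S w) : v.Same w := by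
  intro a ha
  obtain ⟨⟨f, k⟩, hf, hk, h1⟩ := H62.rep S ha
  rw [h1, v.map_div (S.ne hf) (S.ne hk), w.map_div (S.ne hf) (S.ne hk), hv f hf, hv k hk,
    hw f hf, hw k hk]

theorem inf_zero (S : Coord L) : S.inf.v 0 = 0 := pval_zero _ _

theorem inf_mem (S : Coord L) : S.inf ∈ PC S := ⟨inf_zero S, Or.inl (LCY.isInf_inf S)⟩

theorem pval_mem_PC (S : Coord L) {p : ℂ[X][X]} (hp : Prime p) : S.pval p hp ∈ PC S :=
  ⟨pval_zero S hp, Or.inr ⟨p, adic_pval S hp⟩⟩

theorem pval_ne_inf (S : Coord L) {p : ℂ[X][X]} (hp : Prime p) : S.pval p hp ≠ S.inf := by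
  intro h
  apply not_isInf_of_adic (adic_pval S hp)
  rw [h]
  exact LCY.isInf_inf S

/-- The curves of the plane at which the prime `p` has a nonzero value. -/
theorem PC_ne {S : Coord L} {p : ℂ[X][X]} (hp : Prime p) {v : DVal L} (hv : v ∈ PC S)
    (hne : v.v (ev S.x S.y p) ≠ 0) : v = S.pval p hp ∨ v = S.inf := by
  rcases hv.2 with h | ⟨g, hg⟩
  · right
    exact DVal.ext' (inf_same h (LCY.isInf_inf S)) (by rw [hv.1, inf_zero])
  · left
    have h1 : g ∣ p := by
      by_contra h
      exact hne (IsAdic.zero_of hg h)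
    have h2 : Associated g p := hg.1.associated_of_dvd hp.irreducible h1
    exact DVal.ext' (IsAdic.same (IsAdic.of_associated hg h2) (adic_pval S hp))
      (by rw [hv.1, pval_zero])

/-- The divisor of a function on the plane is finite and has degree zero. -/
theorem plane_sum (S : Coord L) (z : L) (hz : z ≠ 0) :
    {v | v ∈ PC S ∧ v.v z ≠ 0}.Finite ∧ ∑ᶠ v ∈ PC S, v.v z * deg S v = 0 := by
  have key : ∀ z : L, z ≠ 0 → SumOK (PC S) (deg S) (fun _ => 0) z := by
    refine mul_induction S _ ?_ ?_ ?_ ?_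
    · intro a b ha hb h1 h2
      exact SumOK.mul ha hb (by norm_num) h1 h2
    · intro a ha h1
      exact SumOK.inv ha (by norm_num) h1
    · intro c hc
      exact SumOK.of_zero rfl fun v _ => v.map_const c hc
    · intro p hp
      have hval : (S.pval p hp).v (ev S.x S.y p) = 1 := IsAdic.self (adic_pval S hp)
      have hinf : S.inf.v (ev S.x S.y p) = - (tdeg p : ℤ) := LCY.isInf_inf S p hp.ne_zero
      have hsub : {v | v ∈ PC S ∧ v.v (ev S.x S.y p) ≠ 0} ⊆
          ({S.pval p hp, S.inf} : Set (DVal L)) := by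
        rintro v ⟨hv, hne⟩
        exact PC_ne hp hv hne
      refine ⟨(Set.toFinite _).subset hsub, ?_⟩
      rw [finsum_mem_inter_support_eq' _ (PC S) {S.pval p hp, S.inf}]
      · rw [finsum_mem_pair (pval_ne_inf S hp), hval, hinf,
          (st_A8 L S _ p (adic_pval S hp)).1, deg_inf (LCY.isInf_inf S)]
        ring
      · intro v hne
        constructor
        · intro hv
          have h1 : v.v (ev S.x S.y p) ≠ 0 := fun h => hne (by simp only [h, zero_mul])
          exact PC_ne hp hv h1
        · rintro (hv | hv)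
          · rw [hv]; exact pval_mem_PC S hp
          · have hv' : v = S.inf := hv
            rw [hv']; exact inf_mem S
  obtain ⟨h1, h2⟩ := key z hz
  exact ⟨h1, h2.symm⟩

end

end H81

end LCY
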