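import Pool.Agent.Helper27.LCY.BR5

/-!
MP_f7e214_ag, row BR7SM, part a: the dimension of the local ring of a point is at most the
dimension of the variety, so a regular local ring has few generators.
-/

open MvPolynomial

namespace LCY

namespace H81

noncomputable section

/-- The Krull dimension of a finitely generated domain is at most its transcendence degree. -/
theorem dim_le_trdeg {A : Type} [CommRing A] [IsDomain A] [Algebra ℂ A]
    [Algebra.FiniteType ℂ A] {d : ℕ} (h : Algebra.trdeg ℂ A = d) : ringKrullDim A ≤ d := by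
  obtain ⟨s, g, hinj, hint⟩ := exists_integral_inj_algHom_of_fg ℂ A
  let _ : Algebra (MvPolynomial (Fin s) ℂ) A := g.toRingHom.toAlgebra
  have : IsScalarTower ℂ (MvPolynomial (Fin s) ℂ) A :=
    IsScalarTower.of_algebraMap_eq (fun c => (g.commutes c).symm)
  have hI : Algebra.IsIntegral (MvPolynomial (Fin s) ℂ) A := ⟨fun a => hint a⟩
  have hF : FaithfulSMul (MvPolynomial (Fin s) ℂ) A :=
    (faithfulSMul_iff_algebraMap_injective _ _).2 hinj
  have hs : s = d := by
    have h2 : Algebra.trdeg ℂ (MvPolynomial (Fin s) ℂ) +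
      Algebra.trdeg (MvPolynomial (Fin s) ℂ) A = Algebra.trdeg ℂ A :=
      trdeg_add_eq ℂ (MvPolynomial (Fin s) ℂ)
    have h3 : Algebra.trdeg (MvPolynomial (Fin s) ℂ) A = 0 := trdeg_eq_zero
    have h4 : Algebra.trdeg ℂ (MvPolynomial (Fin s) ℂ) = s := by
      rw [MvPolynomial.trdeg_of_isDomain]
      simp
    rw [h3, add_zero, h4, h] at h2
    exact_mod_cast h2
  subst hs
  have h1 : ringKrullDim (MvPolynomial (Fin s) ℂ) = s := by
    rw [MvPolynomial.ringKrullDim_of_isNoetherianRing, ringKrullDim_eq_zero_of_field]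
    simp
  rw [← h1]
  refine Order.krullDim_le_of_strictMono
    (PrimeSpectrum.comap (algebraMap (MvPolynomial (Fin s) ℂ) A)) ?_
  intro P Q hPQ
  exact Ideal.IsIntegral.comap_lt_comap hPQ

variable {N : ℕ}

theorem dim_loc_le (Y : Var N) {d : ℕ} (hY : Y.HasDim d) {p : Fin (N + 1) → ℂ} (hp : Y.IsPt p) :
    ringKrullDim (Y.locRing (ptIdeal p)) ≤ d := by
  obtain ⟨i, hi⟩ := exists_chart hp.1
  have hIJ := Y.le_ptIdeal p hp
  have hiI : (X i : S N) ∉ Y.I := fun h => hi (hIJ h)
  set A : Subalgebra ℂ Y.L := (aeval (Y.y i) : S N →ₐ[ℂ] Y.L).range with hA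
  have hfr := Y.isFracOf_aff (ptIdeal p) hIJ hi
  have : IsFractionRing A Y.L := isFractionRing_of (Y.frac_y hiI)
  have htr : Algebra.trdeg ℂ A = d := by
    rw [trdeg_eq_of_frac A]
    exact Y.trdeg_L hY
  have hft : Algebra.FiniteType ℂ A :=
    Algebra.FiniteType.of_surjective (aeval (Y.y i) : S N →ₐ[ℂ] Y.L).rangeRestrict
      (AlgHom.rangeRestrict_surjective _)
  have h1 := dim_le_trdeg htr
  letI : Algebra A (Y.locRing (ptIdeal p)) := (Subalgebra.inclusion hfr.le).toAlgebra
  have hloc : IsLocalization (denoms A (Y.locRing (ptIdeal p))) (Y.locRing (ptIdeal p)) :=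
    hfr.isLocalization
  refine le_trans ?_ h1
  refine Order.krullDim_le_of_strictMono
    (PrimeSpectrum.comap (algebraMap A (Y.locRing (ptIdeal p)))) ?_
  intro P Q hPQ
  have hinj := PrimeSpectrum.localization_comap_injective (Y.locRing (ptIdeal p))
    (denoms A (Y.locRing (ptIdeal p)))
  refine lt_of_le_of_ne ?_ fun h => hPQ.ne (hinj h)
  exact fun x hx => hPQ.le hx

/-- The maximal ideal of a regular local ring of dimension at most two has two generators. -/
theorem two_gens {O : Type} [CommRing O] [IsRegularLocalRing O] (h : ringKrullDim O ≤ (2 : ℕ)) :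
    ∃ x y : O, IsLocalRing.maximalIdeal O = Ideal.span {x, y} := by
  have h1 := IsRegularLocalRing.spanFinrank_maximalIdeal (R := O)
  rw [← h1] at h
  have h2 : (IsLocalRing.maximalIdeal O).spanFinrank ≤ 2 := by exact_mod_cast h
  have hfg : Submodule.FG (IsLocalRing.maximalIdeal O) := IsNoetherian.noetherian _
  have h3 := hfg.generators_ncard
  have h4 := Submodule.span_generators (IsLocalRing.maximalIdeal O)
  have hfin := hfg.finite_generators
  rw [← h3] at h2
  rcases Nat.lt_or_ge 0 (Submodule.generators (IsLocalRing.maximalIdeal O)).ncard with h5 | h5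
  · rcases (show (Submodule.generators (IsLocalRing.maximalIdeal O)).ncard = 1 ∨
      (Submodule.generators (IsLocalRing.maximalIdeal O)).ncard = 2 by omega) with h6 | h6
    · obtain ⟨a, ha⟩ := Set.ncard_eq_one.1 h6
      refine ⟨a, a, ?_⟩
      rw [ha] at h4
      rw [Set.pair_eq_singleton]
      exact h4.symm
    · obtain ⟨a, b, -, ha⟩ := Set.ncard_eq_two.1 h6
      refine ⟨a, b, ?_⟩
      rw [ha] at h4
      exact h4.symm
  · have h6 : Submodule.generators (IsLocalRing.maximalIdeal O) = ∅ := by
      rw [← Set.ncard_eq_zero hfin]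
      omega
    refine ⟨0, 0, ?_⟩
    rw [h6] at h4
    rw [← h4]
    simp

/-- The maximal ideal of a regular local ring of dimension at most one is principal. -/
theorem one_gen {O : Type} [CommRing O] [IsRegularLocalRing O] (h : ringKrullDim O ≤ (1 : ℕ)) :
    ∃ x : O, IsLocalRing.maximalIdeal O = Ideal.span {x} := by
  have h1 := IsRegularLocalRing.spanFinrank_maximalIdeal (R := O)
  rw [← h1] at h
  have h2 : (IsLocalRing.maximalIdeal O).spanFinrank ≤ 1 := by exact_mod_cast h
  have hfg : Submodule.FG (IsLocalRing.maximalIdeal O) := IsNoetherian.noetherian _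
  have h3 := hfg.generators_ncard
  have h4 := Submodule.span_generators (IsLocalRing.maximalIdeal O)
  have hfin := hfg.finite_generators
  rw [← h3] at h2
  rcases Nat.lt_or_ge 0 (Submodule.generators (IsLocalRing.maximalIdeal O)).ncard with h5 | h5
  · obtain ⟨a, ha⟩ := Set.ncard_eq_one.1 (show
      (Submodule.generators (IsLocalRing.maximalIdeal O)).ncard = 1 by omega)
    refine ⟨a, ?_⟩
    rw [ha] at h4
    exact h4.symm
  · have h6 : Submodule.generators (IsLocalRing.maximalIdeal O) = ∅ := by
      rw [← Set.ncard_eq_zero hfin]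
      omega
    refine ⟨0, ?_⟩
    rw [h6] at h4
    rw [← h4]
    simp

end

end H81

end LCY
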