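import Mathlib

/-!
MP_f7e214_ag, row BR7SM, part b: local algebra of a two-dimensional regular local ring.
-/

namespace LCY

namespace H81

noncomputable section

open IsLocalRing

variable {O : Type} [CommRing O] [IsLocalRing O] [IsNoetherianRing O] [Algebra ℂ O]

theorem nak {N N' : Ideal O} (h : N' ≤ N ⊔ maximalIdeal O * N') : N' ≤ N := by
  refine Submodule.le_of_le_smul_of_le_jacobson_bot (I := maximalIdeal O)
    (IsNoetherian.noetherian N') ?_ h
  exact (IsLocalRing.jacobson_eq_maximalIdeal _ bot_ne_top).ge

/-- Elements of the maximal ideal are linear combinations of the generators with constant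
coefficients modulo the square of the maximal ideal. -/
theorem lin_mod (hres : ∀ a : O, ∃ z : ℂ, a - algebraMap ℂ O z ∈ maximalIdeal O) {x y : O}
    (hm : maximalIdeal O = Ideal.span {x, y}) {z : O} (hz : z ∈ maximalIdeal O) :
    ∃ a b : ℂ, z - (algebraMap ℂ O a * x + algebraMap ℂ O b * y) ∈
      maximalIdeal O * maximalIdeal O := by
  have hx : x ∈ maximalIdeal O := by
    rw [hm]; exact Ideal.subset_span (by simp)
  have hy : y ∈ maximalIdeal O := by
    rw [hm]; exact Ideal.subset_span (by simp)
  have hz' := hz
  rw [hm, Ideal.mem_span_pair] at hz'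
  obtain ⟨α, β, h⟩ := hz'
  obtain ⟨a, ha⟩ := hres α
  obtain ⟨b, hb⟩ := hres β
  refine ⟨a, b, ?_⟩
  have h1 : z - (algebraMap ℂ O a * x + algebraMap ℂ O b * y) =
      (α - algebraMap ℂ O a) * x + (β - algebraMap ℂ O b) * y := by
    rw [← h]; ring
  rw [h1]
  exact Ideal.add_mem _ (Ideal.mul_mem_mul ha hx) (Ideal.mul_mem_mul hb hy)

/-- A prime `P` such that the maximal ideal is generated by `u` and `P`. -/
theorem prime_principal
    (hres : ∀ a : O, ∃ z : ℂ, a - algebraMap ℂ O z ∈ maximalIdeal O) {x y u : O}
    (hm : maximalIdeal O = Ideal.span {x, y}) (hnp : ¬ (maximalIdeal O).IsPrincipal)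
    {P : Ideal O} [hP : P.IsPrime] (hPm : P ≠ maximalIdeal O)
    (hu : maximalIdeal O = Ideal.span {u} ⊔ P) :
    ∃ f, P = Ideal.span {f} ∧ maximalIdeal O = Ideal.span {f, u} := by
  have hPle : P ≤ maximalIdeal O := by rw [hu]; exact le_sup_right
  have hum : u ∈ maximalIdeal O := by
    rw [hu]; exact (le_sup_left : Ideal.span {u} ≤ _) (Ideal.mem_span_singleton_self u)
  have h1 : ∃ f ∈ P, f ∉ Ideal.span {u} ⊔ maximalIdeal O * maximalIdeal O := by
    by_contra hc
    push Not at hc
    apply hnp
    refine ⟨u, ?_⟩
    apply le_antisymm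
    · apply nak
      intro z hz
      rw [hu] at hz
      exact (sup_le le_sup_left hc : Ideal.span {u} ⊔ P ≤ _) hz
    · rw [Ideal.submodule_span_eq, Ideal.span_le, Set.singleton_subset_iff]
      exact hum
  obtain ⟨f, hfP, hf⟩ := h1
  have hu2 : u ∉ maximalIdeal O * maximalIdeal O := by
    intro h
    apply hPm
    apply le_antisymm hPle
    apply nak
    intro z hz
    rw [hu] at hz
    refine (sup_le ?_ le_sup_left : Ideal.span {u} ⊔ P ≤ _) hz
    rw [Ideal.span_le, Set.singleton_subset_iff]
    exact (le_sup_right : _ ≤ P ⊔ maximalIdeal O * maximalIdeal O) h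
  obtain ⟨a, b, hab⟩ := lin_mod hres hm hum
  obtain ⟨c, d, hcd⟩ := lin_mod hres hm (hPle hfP)
  have hdet : a * d - b * c ≠ 0 := by
    intro h0
    have key : ∃ t : ℂ, c = t * a ∧ d = t * b := by
      by_cases ha : a = 0
      · by_cases hb : b = 0
        · exfalso
          apply hu2
          rw [ha, hb, map_zero] at hab
          simpa using hab
        · refine ⟨d / b, ?_, ?_⟩
          · rw [ha] at h0 ⊢
            have : b * c = 0 := by linear_combination -h0
            rw [(mul_eq_zero.1 this).resolve_left hb, mul_zero]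
          · field_simp
      · refine ⟨c / a, ?_, ?_⟩
        · field_simp
        · field_simp
          linear_combination h0
    obtain ⟨t, rfl, rfl⟩ := key
    apply hf
    have h2 : f - algebraMap ℂ O t * u ∈ maximalIdeal O * maximalIdeal O := by
      have h3 : f - algebraMap ℂ O t * u =
          (f - (algebraMap ℂ O (t * a) * x + algebraMap ℂ O (t * b) * y)) -
          algebraMap ℂ O t * (u - (algebraMap ℂ O a * x + algebraMap ℂ O b * y)) := by
        rw [map_mul, map_mul]; ring
      rw [h3]
      exact Ideal.sub_mem _ hcd (Ideal.mul_mem_left _ _ hab)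
    have h3 : f = algebraMap ℂ O t * u + (f - algebraMap ℂ O t * u) := by ring
    rw [h3]
    exact Submodule.add_mem_sup
      (Ideal.mul_mem_left _ _ (Ideal.mem_span_singleton_self u)) h2
  have hfu : maximalIdeal O = Ideal.span {f, u} := by
    apply le_antisymm
    · apply nak
      set J : Ideal O := Ideal.span {f, u} ⊔ maximalIdeal O * maximalIdeal O with hJ
      have hfJ : f ∈ J := (le_sup_left : Ideal.span {f, u} ≤ J) (Ideal.subset_span (by simp))
      have huJ : u ∈ J := (le_sup_left : Ideal.span {f, u} ≤ J) (Ideal.subset_span (by simp))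
      have h4 : algebraMap ℂ O a * x + algebraMap ℂ O b * y ∈ J := by
        have : algebraMap ℂ O a * x + algebraMap ℂ O b * y =
          u - (u - (algebraMap ℂ O a * x + algebraMap ℂ O b * y)) := by ring
        rw [this]
        exact Ideal.sub_mem _ huJ ((le_sup_right : _ ≤ J) hab)
      have h5 : algebraMap ℂ O c * x + algebraMap ℂ O d * y ∈ J := by
        have : algebraMap ℂ O c * x + algebraMap ℂ O d * y =
          f - (f - (algebraMap ℂ O c * x + algebraMap ℂ O d * y)) := by ring
        rw [this]
        exact Ideal.sub_mem _ hfJ ((le_sup_right : _ ≤ J) hcd)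
      have hinv : algebraMap ℂ O (a * d - b * c)⁻¹ * algebraMap ℂ O (a * d - b * c) = 1 := by
        rw [← map_mul, inv_mul_cancel₀ hdet, map_one]
      have hx : x ∈ J := by
        have : x = algebraMap ℂ O (a * d - b * c)⁻¹ *
            (algebraMap ℂ O d * (algebraMap ℂ O a * x + algebraMap ℂ O b * y) -
              algebraMap ℂ O b * (algebraMap ℂ O c * x + algebraMap ℂ O d * y)) := by
          have h6 : algebraMap ℂ O d * (algebraMap ℂ O a * x + algebraMap ℂ O b * y) -
              algebraMap ℂ O b * (algebraMap ℂ O c * x + algebraMap ℂ O d * y) =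
              algebraMap ℂ O (a * d - b * c) * x := by
            rw [map_sub, map_mul, map_mul]; ring
          rw [h6, ← mul_assoc, hinv, one_mul]
        rw [this]
        exact Ideal.mul_mem_left _ _ (Ideal.sub_mem _ (Ideal.mul_mem_left _ _ h4)
          (Ideal.mul_mem_left _ _ h5))
      have hy : y ∈ J := by
        have : y = algebraMap ℂ O (a * d - b * c)⁻¹ *
            (algebraMap ℂ O a * (algebraMap ℂ O c * x + algebraMap ℂ O d * y) -
              algebraMap ℂ O c * (algebraMap ℂ O a * x + algebraMap ℂ O b * y)) := by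
          have h6 : algebraMap ℂ O a * (algebraMap ℂ O c * x + algebraMap ℂ O d * y) -
              algebraMap ℂ O c * (algebraMap ℂ O a * x + algebraMap ℂ O b * y) =
              algebraMap ℂ O (a * d - b * c) * y := by
            rw [map_sub, map_mul, map_mul]; ring
          rw [h6, ← mul_assoc, hinv, one_mul]
        rw [this]
        exact Ideal.mul_mem_left _ _ (Ideal.sub_mem _ (Ideal.mul_mem_left _ _ h5)
          (Ideal.mul_mem_left _ _ h4))
      conv_lhs => rw [hm]
      rw [Ideal.span_le]
      rintro z (rfl | hz)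
      · exact hx
      · rw [Set.mem_singleton_iff] at hz
        rw [hz]; exact hy
    · rw [Ideal.span_le]
      rintro z (rfl | hz)
      · exact hPle hfP
      · rw [Set.mem_singleton_iff] at hz
        rw [hz]; exact hum
  have huP : u ∉ P := by
    intro h
    apply hPm
    apply le_antisymm hPle
    rw [hfu, Ideal.span_le]
    rintro z (rfl | hz)
    · exact hfP
    · rw [Set.mem_singleton_iff] at hz
      rw [hz]; exact h
  refine ⟨f, ?_, hfu⟩
  apply le_antisymm
  · apply nak
    intro z hz
    have hz' := hPle hz
    rw [hfu, Ideal.mem_span_pair] at hz'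
    obtain ⟨β, α, h⟩ := hz'
    have h6 : α * u ∈ P := by
      have : α * u = z - β * f := by rw [← h]; ring
      rw [this]
      exact Ideal.sub_mem _ hz (Ideal.mul_mem_left _ _ hfP)
    have h7 : α ∈ P := (hP.mem_or_mem h6).resolve_right huP
    rw [← h]
    refine Submodule.add_mem_sup (Ideal.mul_mem_left _ _ (Ideal.mem_span_singleton_self f)) ?_
    rw [mul_comm (maximalIdeal O) P]
    exact Ideal.mul_mem_mul h7 hum
  · rw [Ideal.span_le, Set.singleton_subset_iff]
    exact hfP

end

end H81

end LCY
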