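import Pool.Agent.Helper81.LCY.SMa
import Pool.Agent.Helper81.LCY.SMb
import Pool.Agent.Helper51.LCY.P3
import Pool.Agent.Helper99.LCY.Restr

/-!
MP_f7e214_ag, row BR7SM, part c: the prime ideal of a curve through a regular point.
-/

open MvPolynomial

namespace LCY

namespace H81

noncomputable section

open IsLocalRing

/-- The elements of positive value of a ring on which `v` is integral. -/
def pI {L : Type} [Field L] [Algebra ℂ L] (O : Subalgebra ℂ L) (v : DVal L)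
    (h : ∀ z ∈ O, v.Int z) : Ideal O where
  carrier := {z | v.Pos (z : L)}
  zero_mem' := Or.inl rfl
  add_mem' := fun ha hb => v.pos_add ha hb
  smul_mem' := by
    intro c z hz
    change v.Pos ((c : L) * (z : L))
    rw [mul_comm]
    exact v.pos_mul_int hz (h _ c.2)

theorem mem_pI {L : Type} [Field L] [Algebra ℂ L] {O : Subalgebra ℂ L} {v : DVal L}
    {h : ∀ z ∈ O, v.Int z} {z : O} : z ∈ pI O v h ↔ v.Pos (z : L) := Iff.rfl

instance pI_prime {L : Type} [Field L] [Algebra ℂ L] (O : Subalgebra ℂ L) (v : DVal L)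
    (h : ∀ z ∈ O, v.Int z) : (pI O v h).IsPrime where
  ne_top' := by
    rw [Ideal.ne_top_iff_one, mem_pI]
    exact v.not_pos_one
  mem_or_mem' := by
    intro a b hab
    rw [mem_pI] at hab
    exact pos_of_mul v (h _ a.2) (h _ b.2) hab

theorem pI_le {L : Type} [Field L] [Algebra ℂ L] (O : Subalgebra ℂ L) [IsLocalRing O]
    (v : DVal L) (h : ∀ z ∈ O, v.Int z) : pI O v h ≤ maximalIdeal O := by
  intro z hz
  rw [mem_maximalIdeal]
  intro hu
  obtain ⟨w, hw⟩ := hu.exists_right_inv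
  have h1 : v.Pos ((z : L) * (w : L)) := v.pos_mul_int hz (h _ w.2)
  have h2 : (z : L) * (w : L) = 1 := congrArg Subtype.val hw
  rw [h2] at h1
  exact v.not_pos_one h1

variable {N : ℕ} {Y : Var N} {p : Fin (N + 1) → ℂ}

/-- The local ring of a point is contained in the local ring of a curve through it. -/
theorem loc_le_curve {C : Var N} (hC : C.IsPt p) {v : DVal Y.L}
    (hv : ∀ a, v.Int a ↔ a ∈ Y.locRing C.I) : ∀ z ∈ Y.locRing (ptIdeal p), v.Int z := by
  rintro z ⟨n, F, G, hF, hG, hGJ, hGI, hz⟩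
  rw [hv]
  exact ⟨n, F, G, hF, hG, fun h => hGJ (C.le_ptIdeal p hC h), hGI, hz⟩

theorem pos_of_not_unit {C : Var N} (hIJ : Y.I ≤ C.I) {v : DVal Y.L}
    (hv : ∀ a, v.Int a ↔ a ∈ Y.locRing C.I) {z : Y.L} {n : ℕ} {F G : S N}
    (hF : F.IsHomogeneous n) (hG : G.IsHomogeneous n) (hGC : G ∉ C.I) (hFC : F ∈ C.I)
    (hz : (z : Y.K) = Y.cls F / Y.cls G) : v.Pos z := by
  have hz1 : z ∈ Y.locRing C.I := ⟨n, F, G, hF, hG, hGC, fun h => hGC (hIJ h), hz⟩
  by_cases hz0 : z = 0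
  · exact Or.inl hz0
  right
  have h1 := ((hv z).2 hz1).resolve_left hz0
  by_contra h2
  have h3 : v.Int z⁻¹ := Or.inr (by rw [v.map_inv hz0]; omega)
  have h4 := Y.not_isUnit_locRing C.I hIJ ⟨z, hz1⟩ F G hGC hFC hz
  apply h4
  refine IsUnit.of_mul_eq_one ⟨z⁻¹, (hv _).1 h3⟩ ?_
  apply Subtype.ext
  exact mul_inv_cancel₀ hz0

theorem mem_I_of_cls {C : Var N} {f : S N} (h : C.cls f = 0) : f ∈ C.I := by
  by_contra hc
  exact C.cls_ne hc h

theorem mem_max_iff (hp : Y.IsPt p) [IsLocalRing (Y.locRing (ptIdeal p))]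
    (z : Y.locRing (ptIdeal p)) {n : ℕ} {F G : S N} (hF : F.IsHomogeneous n)
    (hG : G.IsHomogeneous n) (hGJ : G ∉ ptIdeal p) (hGI : G ∉ Y.I)
    (hz : ((z : Y.L) : Y.K) = Y.cls F / Y.cls G) :
    z ∈ maximalIdeal (Y.locRing (ptIdeal p)) ↔ F ∈ ptIdeal p := by
  rw [mem_maximalIdeal]
  constructor
  · intro h
    by_contra hF'
    apply h
    exact Y.isUnit_locRing (ptIdeal p) z n F G hF hG hGI hF'
      (fun h' => hF' (Y.le_ptIdeal p hp h')) hz
  · intro hF'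
    exact Y.not_isUnit_locRing (ptIdeal p) (Y.le_ptIdeal p hp) z F G hGJ hF' hz

/-- The maximal ideal of a point on a smooth curve is generated by the ideal of the curve and
one further element. -/
theorem exists_u [IsLocalRing (Y.locRing (ptIdeal p))] {C : Var N} (hYC : Y.IsCurveOn C)
    (hC : C.IsPt p) (hreg : C.Regular p) {v : DVal Y.L}
    (hv : ∀ a, v.Int a ↔ a ∈ Y.locRing C.I) :
    ∃ u, maximalIdeal (Y.locRing (ptIdeal p)) =
      Ideal.span {u} ⊔ pI (Y.locRing (ptIdeal p)) v (loc_le_curve hC hv) := by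
  have hp : Y.IsPt p := ⟨hC.1, fun f hf => hC.2 f (hYC.1 hf)⟩
  have hCp := C.le_ptIdeal p hC
  have hreg' : IsRegularLocalRing (C.locRing (ptIdeal p)) := hreg
  obtain ⟨ub, hub⟩ := one_gen (O := C.locRing (ptIdeal p)) (dim_loc_le C hYC.2 hC)
  obtain ⟨n0, F0, G0, hF0, hG0, hG0J, hG0I, hu0⟩ := ub.2
  have hub1 : ub ∈ maximalIdeal (C.locRing (ptIdeal p)) := by
    rw [hub]; exact Ideal.mem_span_singleton_self _
  have hF0p : F0 ∈ ptIdeal p := (mem_max_iff hC ub hF0 hG0 hG0J hG0I hu0).1 hub1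
  have hG0Y : G0 ∉ Y.I := fun h => hG0I (hYC.1 h)
  set u : Y.locRing (ptIdeal p) := ⟨⟨Y.cls F0 / Y.cls G0,
    ⟨n0, F0, G0, hF0, hG0, hG0Y, hG0Y, rfl⟩⟩, ⟨n0, F0, G0, hF0, hG0, hG0J, hG0Y, rfl⟩⟩ with hu
  refine ⟨u, le_antisymm ?_ (sup_le ?_ (pI_le _ _ _))⟩
  · intro z hz
    obtain ⟨n, F, G, hF, hG, hGJ, hGI, hzz⟩ := z.2
    have hFp : F ∈ ptIdeal p := (mem_max_iff hp z hF hG hGJ hGI hzz).1 hz
    have hGC : G ∉ C.I := fun h => hGJ (hCp h)
    set zb : C.locRing (ptIdeal p) := ⟨⟨C.cls F / C.cls G, ⟨n, F, G, hF, hG, hGC, hGC, rfl⟩⟩,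
      ⟨n, F, G, hF, hG, hGJ, hGC, rfl⟩⟩ with hzb
    have hzb1 : zb ∈ maximalIdeal (C.locRing (ptIdeal p)) :=
      (mem_max_iff hC zb hF hG hGJ hGC rfl).2 hFp
    rw [hub, Ideal.mem_span_singleton'] at hzb1
    obtain ⟨wb, hwb⟩ := hzb1
    obtain ⟨n1, F1, G1, hF1, hG1, hG1J, hG1I, hw1⟩ := wb.2
    have hG1Y : G1 ∉ Y.I := fun h => hG1I (hYC.1 h)
    have h1 : C.cls F1 / C.cls G1 * (C.cls F0 / C.cls G0) = C.cls F / C.cls G := by
      rw [← hw1, ← hu0]
      exact congrArg (fun t : C.locRing (ptIdeal p) => ((t : C.L) : C.K)) hwb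
    have h2 : F * (G1 * G0) - F1 * F0 * G ∈ C.I := by
      apply mem_I_of_cls
      have e1 := C.cls_ne hG0I
      have e2 := C.cls_ne hG1I
      have e3 := C.cls_ne hGC
      rw [div_mul_div_comm, div_eq_div_iff (mul_ne_zero e2 e1) e3] at h1
      have h3 : F * (G1 * G0) - F1 * F0 * G = F * (G1 * G0) + (-1) * (F1 * F0 * G) := by ring
      have h4 : C.cls (-1) = -1 := by simp [Var.cls]
      rw [h3, Var.cls_add, Var.cls_mul, Var.cls_mul, Var.cls_mul, Var.cls_mul, Var.cls_mul, h4]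
      linear_combination -h1
    set w : Y.locRing (ptIdeal p) := ⟨⟨Y.cls F1 / Y.cls G1,
      ⟨n1, F1, G1, hF1, hG1, hG1Y, hG1Y, rfl⟩⟩, ⟨n1, F1, G1, hF1, hG1, hG1J, hG1Y, rfl⟩⟩ with hw
    have h3 : v.Pos ((z - w * u : Y.locRing (ptIdeal p)) : Y.L) := by
      have hGGG : G * (G1 * G0) ∉ C.I := by
        intro h
        rcases C.prime.mem_or_mem h with h | h
        · exact hGC h
        · rcases C.prime.mem_or_mem h with h | h
          · exact hG1I h
          · exact hG0I h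
      refine pos_of_not_unit hYC.1 hv (n := n + (n1 + n0)) (F := F * (G1 * G0) - F1 * F0 * G)
        (G := G * (G1 * G0)) ?_ (hG.mul (hG1.mul hG0)) hGGG h2 ?_
      · refine (hF.mul (hG1.mul hG0)).sub ?_
        have := (hF1.mul hF0).mul hG
        rwa [add_comm (n1 + n0) n] at this
      · have e1 := Y.cls_ne hG0Y
        have e2 := Y.cls_ne hG1Y
        have e3 := Y.cls_ne hGI
        have e4 : (((z - w * u : Y.locRing (ptIdeal p)) : Y.L) : Y.K) =
            ((z : Y.L) : Y.K) - Y.cls F1 / Y.cls G1 * (Y.cls F0 / Y.cls G0) := rfl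
        have h5 : F * (G1 * G0) - F1 * F0 * G = F * (G1 * G0) + (-1) * (F1 * F0 * G) := by ring
        have h4 : Y.cls (-1) = -1 := by simp [Var.cls]
        rw [e4, hzz, h5, Var.cls_add, Var.cls_mul, Var.cls_mul, Var.cls_mul, Var.cls_mul,
          Var.cls_mul, Var.cls_mul, Var.cls_mul, h4]
        field_simp
        ring
    have h4 : z = w * u + (z - w * u) := by ring
    rw [h4]
    exact Submodule.add_mem_sup (Ideal.mul_mem_left _ _ (Ideal.mem_span_singleton_self u)) h3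
  · rw [Ideal.span_le, Set.singleton_subset_iff]
    exact (mem_max_iff hp u hF0 hG0 hG0J hG0Y rfl).2 hF0p

/-- Fractions: elements of the local ring of the curve. -/
theorem curve_frac {C : Var N} (hYC : Y.IsCurveOn C) (hC : C.IsPt p) {v : DVal Y.L}
    (hv : ∀ a, v.Int a ↔ a ∈ Y.locRing C.I) {z : Y.L} (hz : v.Int z) :
    ∃ a ∈ Y.locRing (ptIdeal p), ∃ s ∈ Y.locRing (ptIdeal p), s ≠ 0 ∧ v.v s = 0 ∧
      z = a * s⁻¹ := by
  obtain ⟨i, hi⟩ := exists_chart hC.1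
  have hfr := Y.isFracOf_loc C.I (ptIdeal p) hYC.1 (C.le_ptIdeal p hC) hi
  obtain ⟨a, ha, s, hs, hs0, hsi, h⟩ := hfr.frac z ((hv z).1 hz)
  refine ⟨a, ha, s, hs, hs0, ?_, h⟩
  have h1 := (loc_le_curve hC hv s hs).resolve_left hs0
  have h2 := ((hv _).2 hsi).resolve_left (inv_ne_zero hs0)
  rw [v.map_inv hs0] at h2
  omega

theorem pI_ne [IsLocalRing (Y.locRing (ptIdeal p))] {C : Var N} (hYC : Y.IsCurveOn C)
    (hC : C.IsPt p) {v : DVal Y.L} (hv : ∀ a, v.Int a ↔ a ∈ Y.locRing C.I) :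
    pI (Y.locRing (ptIdeal p)) v (loc_le_curve hC hv) ≠
      maximalIdeal (Y.locRing (ptIdeal p)) := by
  intro heq
  have hp : Y.IsPt p := ⟨hC.1, fun f hf => hC.2 f (hYC.1 hf)⟩
  obtain ⟨t, ht⟩ := v.exists_res
  have ht0 := v.resTr_ne ht
  obtain ⟨a, ha, s, hs, hs0, hvs, h⟩ := curve_frac hYC hC hv (z := t)
    (Or.inr (by rw [v.resTr_val ht]))
  have h1 : IsUnit (⟨s, hs⟩ : Y.locRing (ptIdeal p)) := by
    by_contra hc
    have h2 : (⟨s, hs⟩ : Y.locRing (ptIdeal p)) ∈ maximalIdeal (Y.locRing (ptIdeal p)) := hc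
    rw [← heq, mem_pI] at h2
    have h3 := h2.resolve_left hs0
    dsimp only at h3
    omega
  obtain ⟨w, hw⟩ := h1.exists_right_inv
  have hw' : s * (w : Y.L) = 1 := congrArg Subtype.val hw
  have h2 : s⁻¹ = (w : Y.L) := (eq_inv_of_mul_eq_one_right hw').symm
  have htm : t ∈ Y.locRing (ptIdeal p) := by
    rw [h, h2]
    exact (Y.locRing (ptIdeal p)).mul_mem ha w.2
  obtain ⟨z, hz⟩ := Y.const_mod p hp ⟨t, htm⟩
  have h3 : (⟨t, htm⟩ - algebraMap ℂ _ z : Y.locRing (ptIdeal p)) ∈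
    maximalIdeal (Y.locRing (ptIdeal p)) := hz
  rw [← heq, mem_pI] at h3
  have h4 : ((⟨t, htm⟩ - algebraMap ℂ _ z : Y.locRing (ptIdeal p)) : Y.L) =
    t - algebraMap ℂ Y.L z := rfl
  rw [h4] at h3
  have h5 := v.resTr_sub ht z
  rcases h3 with h3 | h3
  · exact v.ne_const_of_resTr ht z (sub_eq_zero.1 h3)
  · omega

/-- A generator of the ideal of a curve is a uniformiser. -/
theorem val_gen {C : Var N} (hYC : Y.IsCurveOn C)
    (hC : C.IsPt p) {v : DVal Y.L} (hv : ∀ a, v.Int a ↔ a ∈ Y.locRing C.I)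
    {f : Y.locRing (ptIdeal p)}
    (hf : pI (Y.locRing (ptIdeal p)) v (loc_le_curve hC hv) = Ideal.span {f}) :
    (f : Y.L) ≠ 0 ∧ v.v (f : Y.L) = 1 := by
  obtain ⟨π, hπ0, hπ⟩ := v.exists_unif
  obtain ⟨a, ha, s, hs, hs0, hvs, h⟩ := curve_frac hYC hC hv (z := π) (Or.inr (by omega))
  have ha0 : a ≠ 0 := by
    rintro rfl
    rw [zero_mul] at h
    exact hπ0 h
  have hva : v.v a = 1 := by
    rw [h, v.map_mul _ _ ha0 (inv_ne_zero hs0), v.map_inv hs0] at hπ
    omega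
  have h1 : (⟨a, ha⟩ : Y.locRing (ptIdeal p)) ∈
      pI (Y.locRing (ptIdeal p)) v (loc_le_curve hC hv) := by
    rw [mem_pI]
    right
    dsimp only
    omega
  have hfp : f ∈ pI (Y.locRing (ptIdeal p)) v (loc_le_curve hC hv) := by
    rw [hf]; exact Ideal.mem_span_singleton_self f
  rw [hf, Ideal.mem_span_singleton'] at h1
  obtain ⟨c, hc⟩ := h1
  have hc' : (c : Y.L) * (f : Y.L) = a := congrArg Subtype.val hc
  have hf0 : (f : Y.L) ≠ 0 := by
    intro h0
    rw [h0, mul_zero] at hc'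
    exact ha0 hc'.symm
  have hc0 : (c : Y.L) ≠ 0 := by
    intro h0
    rw [h0, zero_mul] at hc'
    exact ha0 hc'.symm
  refine ⟨hf0, ?_⟩
  rw [← hc', v.map_mul _ _ hc0 hf0] at hva
  have h2 := (loc_le_curve hC hv _ c.2).resolve_left hc0
  have h3 := (mem_pI.1 hfp).resolve_left hf0
  omega

/-- Curves through the point with comparable prime ideals are equal. -/
theorem curve_eq {C E : Var N} (hYC : Y.IsCurveOn C) (hYE : Y.IsCurveOn E)
    (hC : C.IsPt p) (hE : E.IsPt p) {v w : DVal Y.L} (hv : ∀ a, v.Int a ↔ a ∈ Y.locRing C.I)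
    (hw : ∀ a, w.Int a ↔ a ∈ Y.locRing E.I)
    (h : ∀ z ∈ Y.locRing (ptIdeal p), v.Pos z → w.Pos z) : C = E := by
  have h1 : ∀ a, w.Int a → v.Int a := by
    intro a ha
    obtain ⟨b, hb, s, hs, hs0, hws, rfl⟩ := curve_frac hYE hE hw ha
    have h2 : v.v s = 0 := by
      by_contra hne
      have h3 := (loc_le_curve hC hv s hs).resolve_left hs0
      have h4 := (h s hs (Or.inr (by omega))).resolve_left hs0
      omega
    refine v.int_mul (loc_le_curve hC hv b hb) (Or.inr ?_)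
    rw [v.map_inv hs0, h2]
    norm_num
  have h2 := v.eq_of_le w h1
  have h3 : Y.locRing C.I = Y.locRing E.I := by
    ext a
    rw [← hv, ← hw]
    exact h2 a
  obtain ⟨i, hi⟩ := exists_chart hC.1
  have key : ∀ {C E : Var N}, Y.IsCurveOn C → Y.IsCurveOn E → C.IsPt p → E.IsPt p →
      Y.locRing C.I = Y.locRing E.I → C.I ≤ E.I := by
    intro C E hYC hYE hC hE h3 f hf
    have hiC : (X i : S N) ∉ C.I := fun h => hi (C.le_ptIdeal p hC h)
    have hiE : (X i : S N) ∉ E.I := fun h => hi (E.le_ptIdeal p hE h)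
    have hiY : (X i : S N) ∉ Y.I := fun h => hiC (hYC.1 h)
    rw [← MvPolynomial.sum_homogeneousComponent f]
    refine Ideal.sum_mem _ ?_
    intro n _
    set g := homogeneousComponent n f with hg
    have hgh : g.IsHomogeneous n := homogeneousComponent_isHomogeneous n f
    have hgC : g ∈ C.I := C.homogeneous f hf n
    by_contra hgE
    have hgY : g ∉ Y.I := fun h => hgE (hYE.1 h)
    have hXn : (X i ^ n : S N).IsHomogeneous n := by
      have := (isHomogeneous_X ℂ i).pow n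
      rwa [one_mul] at this
    have hXnC : (X i ^ n : S N) ∉ C.I := fun h => hiC (C.prime.mem_of_pow_mem n h)
    have hXnE : (X i ^ n : S N) ∉ E.I := fun h => hiE (E.prime.mem_of_pow_mem n h)
    have hXnY : (X i ^ n : S N) ∉ Y.I := fun h => hXnC (hYC.1 h)
    set z : Y.L := ⟨Y.cls (X i ^ n) / Y.cls g, ⟨n, X i ^ n, g, hXn, hgh, hgY, hgY, rfl⟩⟩ with hz
    have hz1 : z ∈ Y.locRing E.I := ⟨n, X i ^ n, g, hXn, hgh, hgE, hgY, rfl⟩
    rw [← h3] at hz1
    have h4 := Y.not_isUnit_locRing C.I hYC.1 ⟨z⁻¹, ⟨n, g, X i ^ n, hgh, hXn, hXnC, hXnY, by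
      change (Y.cls (X i ^ n) / Y.cls g)⁻¹ = _
      rw [inv_div]⟩⟩ g (X i ^ n) hXnC hgC (by
        change (Y.cls (X i ^ n) / Y.cls g)⁻¹ = _
        rw [inv_div])
    apply h4
    refine IsUnit.of_mul_eq_one ⟨z, hz1⟩ ?_
    apply Subtype.ext
    have hz0 : z ≠ 0 := by
      intro h0
      have h5 : (z : Y.K) = 0 := congrArg Subtype.val h0
      exact div_ne_zero (Y.cls_ne hXnY) (Y.cls_ne hgY) h5
    exact inv_mul_cancel₀ hz0
  have h4 : C.I = E.I := le_antisymm (key hYC hYE hC hE h3) (key hYE hYC hE hC h3.symm)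
  cases C
  cases E
  simp only at h4
  subst h4
  rfl

end

end H81

end LCY
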