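import Pool.Agent.Helper81.LCY.SMc
import Pool.Agent.Helper27.LCY.BR6

/-!
MP_f7e214_ag, row BR7SM, part d: differentials of a local ring with two generators of the
maximal ideal; the bracket of the generators.
-/

open MvPolynomial

namespace LCY

namespace H81

noncomputable section

open IsLocalRing KaehlerDifferential

/-- The differentials of a local ring are generated by the differentials of the generators of
the maximal ideal. -/
theorem omega_span {O : Type} [CommRing O] [IsLocalRing O] [Algebra ℂ O]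
    [Algebra.EssFiniteType ℂ O] (hres : ∀ a : O, ∃ z : ℂ, a - algebraMap ℂ O z ∈ maximalIdeal O)
    {x y : O} (hm : maximalIdeal O = Ideal.span {x, y}) (a : O) :
    ∃ α β : O, D ℂ O a = α • D ℂ O x + β • D ℂ O y := by
  have hx : x ∈ maximalIdeal O := by
    rw [hm]; exact Ideal.subset_span (by simp)
  have hy : y ∈ maximalIdeal O := by
    rw [hm]; exact Ideal.subset_span (by simp)
  set M : Submodule O (Ω[O⁄ℂ]) := Submodule.span O {D ℂ O x, D ℂ O y} with hM
  have key : (⊤ : Submodule O (Ω[O⁄ℂ])) ≤ M := by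
    refine Submodule.le_of_le_smul_of_le_jacobson_bot (I := maximalIdeal O)
      (Module.Finite.fg_top) (IsLocalRing.jacobson_eq_maximalIdeal _ bot_ne_top).ge ?_
    rw [← KaehlerDifferential.span_range_derivation ℂ O, Submodule.span_le]
    rintro _ ⟨b, rfl⟩
    rw [KaehlerDifferential.span_range_derivation ℂ O]
    obtain ⟨z, hz⟩ := hres b
    rw [hm, Ideal.mem_span_pair] at hz
    obtain ⟨u, w, h⟩ := hz
    have h1 : D ℂ O b = (u • D ℂ O x + w • D ℂ O y) + (x • D ℂ O u + y • D ℂ O w) := by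
      have h2 : b = u * x + w * y + algebraMap ℂ O z := by rw [h]; ring
      conv_lhs => rw [h2]
      rw [map_add, map_add, Derivation.leibniz, Derivation.leibniz, Derivation.map_algebraMap]
      abel
    rw [SetLike.mem_coe, h1]
    refine Submodule.add_mem_sup ?_ ?_
    · exact M.add_mem (M.smul_mem _ (Submodule.subset_span (by simp)))
        (M.smul_mem _ (Submodule.subset_span (by simp)))
    · exact Submodule.add_mem _ (Submodule.smul_mem_smul hx trivial)
        (Submodule.smul_mem_smul hy trivial)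
  have h1 : D ℂ O a ∈ M := key trivial
  rw [hM, Submodule.mem_span_pair] at h1
  obtain ⟨α, β, h⟩ := h1
  exact ⟨α, β, h.symm⟩

section

variable {L : Type} [Field L] [Algebra ℂ L] (O : Subalgebra ℂ L) [IsLocalRing O]
  [Algebra.EssFiniteType ℂ O] (B : Bracket L)

/-- The bracket with `b` in terms of the brackets of the generators. -/
theorem br_span (hres : ∀ a : O, ∃ z : ℂ, a - algebraMap ℂ O z ∈ maximalIdeal O)
    {x y : O} (hm : maximalIdeal O = Ideal.span {x, y}) (a : O) :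
    ∃ α β : O, ∀ b : L, B.br (a : L) b = (α : L) * B.br (x : L) b + (β : L) * B.br (y : L) b := by
  obtain ⟨α, β, h⟩ := omega_span hres hm a
  refine ⟨α, β, fun b => ?_⟩
  have h1 := congrArg ((B.der b).compAlgebraMap O).liftKaehlerDifferential h
  rw [map_add, map_smul, map_smul, Derivation.liftKaehlerDifferential_comp_D,
    Derivation.liftKaehlerDifferential_comp_D, Derivation.liftKaehlerDifferential_comp_D] at h1
  exact h1

/-- All brackets of elements of the local ring are multiples of the bracket of the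
generators. -/
theorem br_mul (hres : ∀ a : O, ∃ z : ℂ, a - algebraMap ℂ O z ∈ maximalIdeal O)
    {x y : O} (hm : maximalIdeal O = Ideal.span {x, y}) (a b : O) :
    ∃ c : O, B.br (a : L) (b : L) = (c : L) * B.br (x : L) (y : L) := by
  obtain ⟨α, β, h⟩ := br_span O B hres hm a
  obtain ⟨α', β', h'⟩ := br_span O B hres hm b
  refine ⟨α * β' - β * α', ?_⟩
  have e1 : B.br (x : L) (b : L) = (β' : L) * B.br (x : L) (y : L) := by
    rw [B.skew, h' (x : L), B.alt, B.skew (y : L) (x : L)]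
    ring
  have e2 : B.br (y : L) (b : L) = - ((α' : L) * B.br (x : L) (y : L)) := by
    rw [B.skew, h' (y : L), B.alt]
    ring
  rw [h (b : L), e1, e2]
  change _ = ((α : L) * β' - β * α') * _
  ring

/-- The bracket of the generators does not vanish. -/
theorem br_gen_ne (hres : ∀ a : O, ∃ z : ℂ, a - algebraMap ℂ O z ∈ maximalIdeal O)
    (hfrac : ∀ z : L, ∃ a ∈ O, ∃ s ∈ O, s ≠ 0 ∧ z = a * s⁻¹)
    {x y : O} (hm : maximalIdeal O = Ideal.span {x, y}) : B.br (x : L) (y : L) ≠ 0 := by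
  intro h0
  have h1 : ∀ a ∈ O, ∀ b ∈ O, B.br a b = 0 := by
    intro a ha b hb
    obtain ⟨c, hc⟩ := br_mul O B hres hm ⟨a, ha⟩ ⟨b, hb⟩
    rw [h0, mul_zero] at hc
    exact hc
  have h2 : ∀ a : L, ∀ b ∈ O, B.br a b = 0 := by
    intro a b hb
    obtain ⟨c, hc, s, hs, hs0, rfl⟩ := hfrac a
    rw [B.mul_left, B.inv_left hs0, h1 c hc b hb, h1 s hs b hb]
    ring
  obtain ⟨a, b, hab⟩ := B.ne_zero
  apply hab
  obtain ⟨c, hc, s, hs, hs0, rfl⟩ := hfrac b
  rw [B.mul_right, B.inv_right hs0, h2 a c hc, h2 a s hs]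
  ring

/-- Brackets of elements of a valuation ring which is a localisation of the local ring. -/
theorem br_int (v : DVal L)
    (hres : ∀ a : O, ∃ z : ℂ, a - algebraMap ℂ O z ∈ maximalIdeal O)
    (hint : ∀ z ∈ O, v.Int z)
    (hfrac : ∀ z : L, v.Int z → ∃ a ∈ O, ∃ s ∈ O, s ≠ 0 ∧ v.v s = 0 ∧ z = a * s⁻¹)
    {x y : O} (hm : maximalIdeal O = Ideal.span {x, y}) (a b : L) (ha : v.Int a)
    (hb : v.Int b) : ∃ c, v.Int c ∧ B.br a b = c * B.br (x : L) (y : L) := by
  have hinv : ∀ s : L, s ≠ 0 → v.v s = 0 → v.Int s⁻¹ := by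
    intro s hs hv
    right
    rw [v.map_inv hs, hv]
    norm_num
  have h1 : ∀ a ∈ O, ∀ b ∈ O, ∃ c, v.Int c ∧ B.br a b = c * B.br (x : L) (y : L) := by
    intro a ha b hb
    obtain ⟨c, hc⟩ := br_mul O B hres hm ⟨a, ha⟩ ⟨b, hb⟩
    exact ⟨c, hint _ c.2, hc⟩
  have h2 : ∀ a, v.Int a → ∀ b ∈ O, ∃ c, v.Int c ∧ B.br a b = c * B.br (x : L) (y : L) := by
    intro a ha b hb
    obtain ⟨c, hc, s, hs, hs0, hvs, rfl⟩ := hfrac a ha
    obtain ⟨d, hd, e1⟩ := h1 c hc b hb
    obtain ⟨e, he, e2⟩ := h1 s hs b hb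
    refine ⟨c * (-(s⁻¹ * s⁻¹ * e)) + s⁻¹ * d, ?_, ?_⟩
    · have hsi := hinv s hs0 hvs
      exact v.int_add (v.int_mul (hint c hc) (v.int_neg (v.int_mul (v.int_mul hsi hsi) he)))
        (v.int_mul hsi hd)
    · rw [B.mul_left, B.inv_left hs0, e1, e2]
      ring
  obtain ⟨c, hc, s, hs, hs0, hvs, rfl⟩ := hfrac b hb
  obtain ⟨d, hd, e1⟩ := h2 a ha c hc
  obtain ⟨e, he, e2⟩ := h2 a ha s hs
  refine ⟨c * (-(s⁻¹ * s⁻¹ * e)) + s⁻¹ * d, ?_, ?_⟩
  · have hsi := hinv s hs0 hvs
    exact v.int_add (v.int_mul (hint c hc) (v.int_neg (v.int_mul (v.int_mul hsi hsi) he)))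
      (v.int_mul hsi hd)
  · rw [B.mul_right, B.inv_right hs0, e1, e2]
    ring

end

variable {N : ℕ} {Y : Var N} {p : Fin (N + 1) → ℂ}

theorem essFinite (hp : Y.IsPt p) : Algebra.EssFiniteType ℂ (Y.locRing (ptIdeal p)) := by
  obtain ⟨i, hi⟩ := exists_chart hp.1
  have hIJ := Y.le_ptIdeal p hp
  set A : Subalgebra ℂ Y.L := (aeval (Y.y i) : S N →ₐ[ℂ] Y.L).range with hA
  have hfr := Y.isFracOf_aff (ptIdeal p) hIJ hi
  have hft : Algebra.FiniteType ℂ A :=
    Algebra.FiniteType.of_surjective (aeval (Y.y i) : S N →ₐ[ℂ] Y.L).rangeRestrict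
      (AlgHom.rangeRestrict_surjective _)
  let _ : Algebra A (Y.locRing (ptIdeal p)) := (Subalgebra.inclusion hfr.le).toAlgebra
  have hst : IsScalarTower ℂ A (Y.locRing (ptIdeal p)) :=
    IsScalarTower.of_algebraMap_eq (fun c => rfl)
  have hloc : IsLocalization (denoms A (Y.locRing (ptIdeal p))) (Y.locRing (ptIdeal p)) :=
    hfr.isLocalization
  have h1 : Algebra.EssFiniteType A (Y.locRing (ptIdeal p)) :=
    Algebra.EssFiniteType.of_isLocalization _ (denoms A (Y.locRing (ptIdeal p)))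
  exact Algebra.EssFiniteType.comp ℂ A (Y.locRing (ptIdeal p))

theorem pt_frac (hp : Y.IsPt p) (z : Y.L) : ∃ a ∈ Y.locRing (ptIdeal p),
    ∃ s ∈ Y.locRing (ptIdeal p), s ≠ 0 ∧ z = a * s⁻¹ := by
  obtain ⟨i, hi⟩ := exists_chart hp.1
  have hIJ := Y.le_ptIdeal p hp
  have hiI : (X i : S N) ∉ Y.I := fun h => hi (hIJ h)
  obtain ⟨a, ha, b, hb, hb0, hz⟩ := Y.frac_y hiI z
  exact ⟨a, (Y.isFracOf_aff (ptIdeal p) hIJ hi).le ha, b,
    (Y.isFracOf_aff (ptIdeal p) hIJ hi).le hb, hb0, hz⟩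

theorem pt_res (hp : Y.IsPt p) [IsLocalRing (Y.locRing (ptIdeal p))]
    (a : Y.locRing (ptIdeal p)) :
    ∃ z : ℂ, a - algebraMap ℂ _ z ∈ maximalIdeal (Y.locRing (ptIdeal p)) := by
  obtain ⟨z, hz⟩ := Y.const_mod p hp a
  exact ⟨z, hz⟩

end

end H81

end LCY
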